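import Pool.Agent.MP_670f9a_nt.H83.Main
import Pool.Agent.MP_670f9a_nt.GL.Loc
import Pool.Agent.MP_670f9a_nt.GL.Chart
import Pool.Agent.MP_670f9a_nt.GL.Fs
import Pool.Agent.MP_670f9a_nt.GL.Mu
import Pool.Agent.MP_670f9a_nt.GL.Green
import Pool.Agent.MP_670f9a_nt.GL.Calc
import Pool.Agent.MP_670f9a_nt.GL.Pol
import Pool.Agent.MP_670f9a_nt.GL.Fund
import Pool.Agent.MP_670f9a_nt.GL.Harm
import Pool.Agent.MP_670f9a_nt.GL.DiscH
import Pool.Agent.MP_670f9a_nt.GL.JM
import Pool.Agent.MP_670f9a_nt.GL.Move
import Pool.Agent.MP_670f9a_nt.GL.AddF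
import Pool.Agent.MP_670f9a_nt.GL.Had
import Pool.Agent.MP_670f9a_nt.GL.HadR
import Pool.Agent.MP_670f9a_nt.GL.Junk
import Pool.Agent.MP_670f9a_nt.GL.Adm
import Pool.Agent.MP_670f9a_nt.GL.StepU
import Pool.Agent.MP_670f9a_nt.GL.FibMove
import Pool.Agent.MP_670f9a_nt.GL.Avg1
import Pool.Agent.MP_670f9a_nt.GL.Avg2
import Pool.Agent.MP_670f9a_nt.GL.StepG
import Pool.Agent.MP_670f9a_nt.GL.Step
import Pool.Agent.MP_670f9a_nt.GL.Eval
import Pool.Agent.MP_670f9a_nt.GL.Iter
import Pool.Agent.MP_670f9a_nt.GL.UB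
import Pool.Agent.MP_670f9a_nt.GL.Alg1
import Pool.Agent.MP_670f9a_nt.GL.Alg2
import Pool.Agent.MP_670f9a_nt.GL.Alg3
import Pool.Agent.MP_670f9a_nt.GL.ResMv
import Pool.Agent.MP_670f9a_nt.GL.Transfer
import Pool.Agent.MP_670f9a_nt.GL.Nonvan
import Pool.Agent.MP_670f9a_nt.GL.Pick
import Pool.Agent.MP_670f9a_nt.GL.LB
import Pool.Agent.MP_670f9a_nt.GL.Comp
import Pool.Agent.MP_670f9a_nt.GL.Sum
import Pool.Agent.MP_670f9a_nt.GL.HI
import Pool.Agent.MP_670f9a_nt.GL.Area
import Pool.Agent.MP_670f9a_nt.GL.Swap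
import Pool.Agent.MP_670f9a_nt.GL.BezG
import Pool.Agent.MP_670f9a_nt.GL.Gam
import Pool.Agent.MP_670f9a_nt.GL.Rho
import Pool.Agent.MP_670f9a_nt.GL.Gauss
import Pool.Agent.MP_670f9a_nt.GL.AreaT
import Pool.Agent.MP_670f9a_nt.GL.Polar
import Pool.Agent.MP_670f9a_nt.GL.ConvX
import Pool.Agent.MP_670f9a_nt.GL.Conv
import Pool.Agent.MP_670f9a_nt.GL.First
import Pool.Agent.MP_670f9a_nt.GL.Shear
import Pool.Agent.MP_670f9a_nt.GL.Cut
import Pool.Agent.MP_670f9a_nt.GL.Ext
import Pool.Agent.MP_670f9a_nt.GL.Vec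
import Pool.Agent.MP_670f9a_nt.GL.GreenRho
import Pool.Agent.MP_670f9a_nt.GL.Turn
import Pool.Agent.MP_670f9a_nt.GL.Err
import Pool.Agent.MP_670f9a_nt.GL.Axis
import Pool.Agent.MP_670f9a_nt.GL.Mass
import Pool.Agent.MP_670f9a_nt.GL.One
import Pool.Agent.MP_670f9a_nt.GL.Final
import Pool.Agent.MP_670f9a_nt.GL.Sw
import Pool.Agent.MP_670f9a_nt.GL.Sh
import Pool.Agent.MP_670f9a_nt.GL.Conv0

/-!
The absolute lower bound for the Mahler measure, assembled.
-/

namespace Pool.Agent.MP_670f9a_nt.GL

theorem allLoc : SLoc :=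
  sLocOf

theorem allChart : SChart :=
  sChartOf

theorem allFs : SFs :=
  sFsOf allLoc allChart

theorem allMu : SMu :=
  sMuOf allLoc allChart allFs

theorem allGreen : SGreen :=
  sGreenOf allChart allFs allMu

theorem allCalc : SCalc :=
  sCalcOf allChart

theorem allPol : SPol :=
  sPolOf

theorem allFund : SFund :=
  sFundOf allPol

theorem allHarm : SHarm :=
  sHarmOf allFund

theorem allDisc : SDisc :=
  sDiscH allPol

theorem allJM : SJM :=
  sJMOf allFund allHarm allDisc

theorem allMove : SMove :=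
  sMoveOf allFund allJM

theorem allAddF : SAddF :=
  sAddFOf

theorem allHad : SHad :=
  sHadOf

theorem allHadR : SHadR :=
  sHadROf allHad

theorem allJunk : SJunk :=
  sJunkOf allDisc

theorem allAdm : SAdm :=
  sAdmOf allChart allFs allMu allCalc allDisc

theorem allStepU : SStepU :=
  sStepUOf allChart allAddF allJunk allAdm

theorem allFibMove : SFibMove :=
  sFibMoveOf allChart allFs allMu allCalc allDisc allMove allAddF allAdm

theorem allAvg1 : SAvg1 :=
  sAvg1Of

theorem allAvg2 : SAvg2 :=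
  sAvg2Of allChart allMu allCalc allFund allAdm

theorem allStepG : SStepG :=
  sStepGOf allLoc allChart allFs allCalc allFund allDisc allJunk allAdm allFibMove allAvg1 allAvg2

theorem allStep : SStep :=
  sStepOf allDisc allAdm allStepU allStepG

theorem allEval : SEval :=
  sEvalOf allChart allMu allGreen allCalc allPol allFund allDisc allAdm

theorem allIter : SIter :=
  sIterOf allAddF

theorem allUB : SUB :=
  sUBOf allDisc allHadR allAdm allStep allEval allIter

theorem allAlg1 : SAlg1 :=
  sAlg1Of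

theorem allAlg2 : SAlg2 :=
  sAlg2Of

theorem allAlg3 : SAlg3 :=
  sAlg3Of

theorem allResMv : SResMv :=
  sResMvOf

theorem allTransfer : STransfer :=
  sTransferOf

theorem allNonvan : SNonvan :=
  sNonvanOf

theorem allPick : SPick :=
  sPickOf

theorem allLB : SLB :=
  sLBOf allChart allResMv allTransfer allNonvan allPick

theorem allComp : SComp :=
  sCompOf allChart allFs allAdm

theorem allSum : SSum :=
  sSumOf allChart allMu allAdm allComp

theorem allArea : SArea :=
  sAreaOf allLoc allChart allMu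

theorem allSwap : SSwap :=
  sSwapOf allChart allMu allArea

theorem allBezG : SBezG :=
  sBezGOf allLoc allChart

theorem allGam : SGam :=
  sGamOf

theorem allRho : SRho :=
  sRhoOf allChart allCalc allGam

theorem allAreaT : SAreaT :=
  sAreaTOf allMu allPol allSwap allRho

theorem allPolar : SPolar :=
  sPolarOf

theorem allConvX : SConvX :=
  sConvXOf allChart allFs allMu allPolar

theorem allConv : SConv :=
  sConvOf allChart allFs allMu allCalc allAdm allSwap allGam allConvX

theorem allFirst : SFirst :=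
  sFirstOf allChart allCalc allAdm allGam allConv

theorem allShear : SShear :=
  sShearOf allLoc allChart allMu allGam

theorem allCut : SCut :=
  sCutOf allPol

theorem allExt : SExt :=
  sExtOf allChart allMu allCalc allPol allCut

theorem allVec : SVec :=
  sVecOf

theorem allGreenRho : SGreenRho :=
  sGreenRhoOf allChart allFs allMu allGreen allCalc allAdm allRho

theorem allTurn : STurn :=
  sTurnOf allMu allCalc allPol allGam allRho allAreaT allExt allGreenRho

theorem allErr : SErr :=
  sErrOf allMu allPol allGam allRho allAreaT allTurn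

theorem allAxis : SAxis :=
  sAxisOf allChart

theorem allMass : SMass :=
  sMassOf allChart allMu allCalc allGam allRho allAreaT allConvX

theorem allSw : SSw :=
  sSwOf

theorem allSh : SSh :=
  sShOf

theorem allConv0 : SConv0 :=
  sConv0Of

theorem allTheta : STheta :=
  sThetaOf

theorem allTor : STor :=
  sTorOf allSw

theorem allHI : SHI :=
  sHIOf allChart allAddF allAdm allUB allAlg1 allAlg2 allAlg3 allTransfer allLB allComp allSum allSw

theorem allGauss : SGauss :=
  sGaussOf allChart allMu allCalc allPol allArea allBezG allRho allTheta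

theorem allOne : SOne :=
  sOneOf allMu allCalc allPol allGam allRho allTheta allGauss allAreaT allExt

theorem allFinal : SFinal :=
  sFinalOf allMu allGam allRho allVec allErr allMass allOne

theorem allMain : SMain :=
  sMainOf allCalc allHI allFirst allShear allFinal allAxis allSw allTor allSh allConv0

end Pool.Agent.MP_670f9a_nt.GL
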