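import Pool.Agent.MP_670f9a_nt.H83.Spec

/-!
The lower bound for the Mahler measure in terms of the number of geometric components:
statements of the additional steps.
-/

namespace Pool.Agent.MP_670f9a_nt.GL

open Polynomial Real Finset MeasureTheory
open Pool.Agent.MP_670f9a_nt.NP (m2 toC mahler pts)
open scoped ComplexConjugate

/-- `P` has a complex divisor whose degree in `y` is at most `1 / s` times that of `P`. -/
def DivR (P : ℤ[X][X]) (s : ℝ) : Prop :=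
  ∃ F : ℂ[X][X], F ∣ toC P ∧ 1 ≤ F.natDegree ∧ s * F.natDegree ≤ P.natDegree

/-- `P` is a product of `s` complex polynomials that are not units. -/
def Fac (P : ℤ[X][X]) (s : ℕ) : Prop :=
  ∃ F : Fin s → ℂ[X][X], (∀ i, ¬ IsUnit (F i)) ∧ ∏ i, F i = toC P

/-- A power of `P` is a product of divisors of `P` of bidegree `(e₁, d₁)`. -/
def Fam (P : ℂ[X][X]) (d₁ e₁ : ℕ) : Prop :=
  ∃ (ι : Type) (_ : Fintype ι) (Q : ι → ℂ[X][X]) (t : ℕ) (q : ℂ), 1 ≤ t ∧ q ≠ 0 ∧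
    (∀ i, Q i ∣ P ∧ (Q i).natDegree = d₁ ∧ (sw (Q i)).natDegree = e₁) ∧
    ∏ i, Q i = C (C q) * P ^ t

/-- A bound for the energy of the functions of the Gauss map. -/
def GaussB (Q : ℂ[X][X]) (g : ℝ) : Prop := ∀ lam kap : ℝ, |lam| ≤ 3 → |kap| ≤ 2 →
  ∫ p, gr Q (Th Q lam kap) (Th Q lam kap) p ∂mu Q ≤ g * DD Q

def SAlg1F : Prop := ∀ (P : ℤ[X][X]) (F : ℂ[X][X]), P ≠ 0 → Irreducible F → F ∣ toC P →
  ∃ (K : IntermediateField ℚ ℂ) (Q : K[X][X]), FiniteDimensional ℚ K ∧ IsGalois ℚ K ∧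
    Associated (mp (algebraMap K ℂ) Q) F ∧ Q ∣ P.map (mapRingHom (Int.castRingHom K))

def SFam : Prop := ∀ (P : ℤ[X][X]) (F : ℂ[X][X]), Irr P → Irreducible F → F ∣ toC P →
  Fam (toC P) F.natDegree (sw F).natDegree ∧
    F.natDegree * (sw P).natDegree = (sw F).natDegree * P.natDegree ∧
    (1 ≤ P.natDegree → 1 ≤ F.natDegree) ∧ (1 ≤ (sw P).natDegree → 1 ≤ (sw F).natDegree)

def SGaussF : Prop := ∀ (P : ℂ[X][X]) (B : Finset ℂ) (d₁ e₁ : ℕ), Tor P B → Fam P d₁ e₁ →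
  GaussB P (10 ^ 5 * e₁ / (sw P).natDegree)

def SOneF : Prop := ∃ C₁ : ℝ, 0 ≤ C₁ ∧ ∀ (Q : ℂ[X][X]) (B : Finset ℂ) (M lam kap t g : ℝ),
  Tor Q B → 0 ≤ M → |lam| ≤ 3 → |kap| ≤ 2 → HF Q B M lam kap → 0 < t → 0 ≤ g → GaussB Q g →
  Integrable (fun p => om Q t p * (Th Q lam kap p * (uu Q p * conj (psi Q lam kap p)).re))
    (mu Q) ∧
  ∫ p, om Q t p * (Th Q lam kap p * (uu Q p * conj (psi Q lam kap p)).re) ∂mu Q ≤
    C₁ * (DD Q * √(t * g) + √(M * DD Q * (g + 1 / t)))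

def SFinalF : Prop := ∃ c : ℝ, 0 < c ∧ ∀ (Q : ℂ[X][X]) (B : Finset ℂ) (m kap l₁ l₂ s : ℝ),
  Tor Q B → 0 ≤ m → Axis Q m → 1 / 2 ≤ kap → kap ≤ 3 / 2 → 1 ≤ l₁ → l₁ ≤ 5 / 2 → 1 ≤ l₂ →
  l₂ ≤ 5 / 2 → HF Q B (40 * π * DD Q * m) 1 0 → HF Q B (40 * π * DD Q * m) l₁ kap →
  HF Q B (40 * π * DD Q * m) l₂ (-kap) → 0 < s → GaussB Q (10 ^ 5 / s) → c * s ≤ m

def SShF : Prop := ∀ (Q Q' F : ℂ[X][X]) (k α : ℤ), Q ≠ 0 → F ∣ Q →
  (∀ x y : ℂ, x ≠ 0 → Q'.evalEval x (x ^ k * y) = x ^ α * Q.evalEval x y) →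
  ∃ F' : ℂ[X][X], F' ∣ Q' ∧ F'.natDegree = F.natDegree

def SDivR : Prop := ∀ P : ℤ[X][X], Irr P → NonCol P →
  (∀ s : ℕ, 1 ≤ s → Fac P s → DivR P s) ∧
  ∀ s : ℝ, 0 < s → DivR P s → DivR (sw P) s ∧
    ∃ d₁ e₁ : ℕ, Fam (toC P) d₁ e₁ ∧ s * e₁ ≤ (sw P).natDegree

def SConv0F : Prop := ∀ (P : MvPolynomial (Fin 2) ℤ) (s : ℕ) (F : Fin s → MvPolynomial (Fin 2) ℂ),
  Irreducible P → ¬ Collinear ℝ (pts P.support) → (∀ i, ¬ IsUnit (F i)) →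
  ∏ i, F i = MvPolynomial.map (Int.castRingHom ℂ) P →
  ∃ G : ℤ[X][X], Irr G ∧ NonCol G ∧ m2 (toC G) = mahler P ∧ Fac G s

/-- The lower bound in terms of the number of geometric components. -/
def SMainF : Prop := ∃ c : ℝ, 0 < c ∧ ∀ (P : MvPolynomial (Fin 2) ℤ) (s : ℕ)
  (F : Fin s → MvPolynomial (Fin 2) ℂ), Irreducible P → ¬ Collinear ℝ (pts P.support) →
  (∀ i, ¬ IsUnit (F i)) → ∏ i, F i = MvPolynomial.map (Int.castRingHom ℂ) P → c * s ≤ mahler P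

def SAlg1FOf : Prop := SAlg1F
def SFamOf : Prop := SAlg1F → SAlg2 → STransfer → SComp → SSw → SFam
def SGaussFOf : Prop :=
  SLoc → SChart → SMu → SCalc → SComp → SRho → STheta → SGauss → SGaussF
def SOneFOf : Prop :=
  SMu → SCalc → SPol → SGam → SRho → STheta → SGauss → SAreaT → SExt → SOneF
def SFinalFOf : Prop := SMu → SGam → SRho → SVec → SErr → SMass → SOneF → SFinalF
def SShFOf : Prop := SShF
def SDivROf : Prop := SFam → SSw → SDivR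
def SConv0FOf : Prop := SConv0F

end Pool.Agent.MP_670f9a_nt.GL
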