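import Pool.Agent.MP_670f9a_nt.H83.Main
import Pool.Agent.MP_670f9a_nt.H83.SpecG

/-!
The lower bound for the Mahler measure in terms of the number of geometric components: assembly.
-/

namespace Pool.Agent.MP_670f9a_nt.GL

open Polynomial Real MeasureTheory
open Pool.Agent.MP_670f9a_nt.NP (m2 toC mahler pts)

/-- The three index inequalities in a reduced basis. -/
theorem reducedF (hC : SCalc) (h1 : SHI) (h2 : SFirst) (h3 : SShear) (h5 : SAxis) (h6 : SSw)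
    (h7 : STor) (h8 : SSh) (S : ℤ[X][X] → Prop)
    (hS : ∀ (P P' : ℤ[X][X]) (k α : ℤ), Irr P → NonCol P → S P → P'.natDegree = P.natDegree →
      (∀ x y : ℂ, x ≠ 0 → (toC P').evalEval x (x ^ k * y) = x ^ α * (toC P).evalEval x y) → S P')
    (P : ℤ[X][X]) (hI : Irr P) (hN : NonCol P) (hP : S P)
    (hde : P.natDegree ≤ (sw P).natDegree)
    (hmin : ∀ P' : ℤ[X][X], Irr P' → NonCol P' → S P' → m2 (toC P') = m2 (toC P) →
      P.natDegree + (sw P).natDegree ≤ P'.natDegree + (sw P').natDegree) :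
    ∃ (B : Finset ℂ) (kap l₁ l₂ : ℝ), Tor (toC P) B ∧ 0 ≤ m2 (toC P) ∧
      Axis (toC P) (m2 (toC P)) ∧ 1 / 2 ≤ kap ∧ kap ≤ 3 / 2 ∧ 1 ≤ l₁ ∧ l₁ ≤ 5 / 2 ∧ 1 ≤ l₂ ∧
      l₂ ≤ 5 / 2 ∧ HF (toC P) B (40 * π * DD (toC P) * m2 (toC P)) 1 0 ∧
      HF (toC P) B (40 * π * DD (toC P) * m2 (toC P)) l₁ kap ∧
      HF (toC P) B (40 * π * DD (toC P) * m2 (toC P)) l₂ (-kap) := by
  classical
  have hdeg : ∀ F : ℤ[X][X], (toC F).natDegree = F.natDegree := fun F => (h6 F).2.1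
  have hdeg' : ∀ F : ℤ[X][X], (sw (toC F)).natDegree = (sw F).natDegree := fun F => by
    rw [← (h6 F).1, hdeg]
  have hd : 1 ≤ P.natDegree := ((h6 P).2.2.2 hI hN).2.2.2
  obtain ⟨k, hk1, hk2⟩ := exists_near _ _ hd hde
  obtain ⟨P₁, α₁, hI₁, hN₁, hm₁, hd₁, he₁, hs₁⟩ := h8 P k hI hN
  obtain ⟨P₂, α₂, hI₂, hN₂, hm₂, hd₂, he₂, hs₂⟩ := h8 P (-k) hI hN
  obtain ⟨B₀, hB₀⟩ := h7.1 P hI hN
  obtain ⟨B₁, hB₁⟩ := h7.1 P₁ hI₁ hN₁
  obtain ⟨B₂, hB₂⟩ := h7.1 P₂ hI₂ hN₂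
  set B := B₀ ∪ B₁ ∪ B₂ with hB
  have hT₀ : Tor (toC P) B := h7.2 _ _ _ hB₀ fun x hx => by simp [hB, hx]
  have hT₁ : Tor (toC P₁) B := h7.2 _ _ _ hB₁ fun x hx => by simp [hB, hx]
  have hT₂ : Tor (toC P₂) B := h7.2 _ _ _ hB₂ fun x hx => by simp [hB, hx]
  obtain ⟨hm, hA⟩ := h5 P B hT₀
  have hF : ∀ F : ℤ[X][X], Irr F → Tor (toC F) B → m2 (toC F) = m2 (toC P) →
      HF (toC F) B (16 * π * DD (toC F) * m2 (toC P)) 1 0 := by
    intro F hF hT hmF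
    obtain ⟨B', hB'⟩ := hT.2.2.2
    have := h1 F B B' hF hT.1 hB'
    rw [hmF] at this
    exact h2 _ _ _ hT hm this
  have he : (0 : ℝ) < (sw P).natDegree := by exact_mod_cast (by omega : 0 < (sw P).natDegree)
  have hd0 : (0 : ℝ) < P.natDegree := by exact_mod_cast hd
  have hkd : (k : ℝ) * P.natDegree ≤ 3 / 2 * (sw P).natDegree := by
    rwa [div_le_iff₀ he] at hk2
  have hrange : ∀ F : ℤ[X][X], Irr F → NonCol F → S F → m2 (toC F) = m2 (toC P) →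
      F.natDegree = P.natDegree → (sw F).natDegree ≤ (sw P).natDegree + k * P.natDegree →
      (1 : ℝ) ≤ (sw F).natDegree / (sw P).natDegree ∧
        ((sw F).natDegree : ℝ) / (sw P).natDegree ≤ 5 / 2 ∧
        16 * π * DD (toC F) * m2 (toC P) ≤ 40 * π * DD (toC P) * m2 (toC P) := by
    intro F a1 a2 a0 a3 a4 a5
    have b1 := hmin F a1 a2 a0 a3
    have b2 : ((sw P).natDegree : ℝ) ≤ (sw F).natDegree := by exact_mod_cast (by omega)
    have b3 : ((sw F).natDegree : ℝ) ≤ (sw P).natDegree + k * P.natDegree := by exact_mod_cast a5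
    have b4 : ((sw F).natDegree : ℝ) ≤ 5 / 2 * (sw P).natDegree := by linarith
    refine ⟨by rwa [le_div_iff₀ he, one_mul], by rwa [div_le_iff₀ he], ?_⟩
    refine mul_le_mul_of_nonneg_right ?_ hm
    unfold DD
    rw [hdeg, hdeg, hdeg', hdeg', a4]
    have := mul_le_mul_of_nonneg_left b4 (by positivity : (0 : ℝ) ≤ 16 * π * P.natDegree)
    linarith
  obtain ⟨a1, a2, a3⟩ :=
    hrange P₁ hI₁ hN₁ (hS P P₁ _ _ hI hN hP hd₁ hs₁) hm₁ hd₁ (by simpa using he₁)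
  obtain ⟨b1, b2, b3⟩ :=
    hrange P₂ hI₂ hN₂ (hS P P₂ _ _ hI hN hP hd₂ hs₂) hm₂ hd₂ (by simpa using he₂)
  have g₁ := h3 _ _ B k α₁ _ hT₀ hT₁ (by rw [hdeg, hdeg, hd₁]) hs₁ (hF P₁ hI₁ hT₁ hm₁)
  have g₂ := h3 _ _ B (-k) α₂ _ hT₀ hT₂ (by rw [hdeg, hdeg, hd₂]) hs₂ (hF P₂ hI₂ hT₂ hm₂)
  rw [hdeg, hdeg', hdeg'] at g₁ g₂
  refine ⟨B, k * P.natDegree / (sw P).natDegree, _, _, hT₀, hm, hA, hk1, hk2, a1, a2, b1, b2,
    HF_mono hC ?_ (hF P hI hT₀ rfl), HF_mono hC a3 (by simpa using g₁),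
    HF_mono hC b3 (by simpa [neg_div] using g₂)⟩
  refine mul_le_mul_of_nonneg_right ?_ hm
  have : 0 ≤ π * DD (toC P) := by unfold DD; positivity
  linarith

theorem sMainFOf (hC : SCalc) (h1 : SHI) (h2 : SFirst) (h3 : SShear) (h4 : SFinalF) (h5 : SAxis)
    (h6 : SSw) (h7 : STor) (h8 : SSh) (h9 : SConv0F) (h10 : SShF) (h11 : SDivR)
    (h12 : SGaussF) : SMainF := by
  classical
  obtain ⟨c, hc, h4⟩ := h4
  refine ⟨c, hc, fun P s F₀ hP hcol hu hprod => ?_⟩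
  obtain ⟨F, hF1, hF2, hF3, hF4⟩ := h9 P s F₀ hP hcol hu hprod
  rcases Nat.eq_zero_or_pos s with rfl | hs
  · obtain ⟨B, hB⟩ := h7.1 F hF1 hF2
    rw [← hF3]
    simpa using (h5 F B hB).1
  have hs' : (0 : ℝ) < s := by exact_mod_cast hs
  have hdeg : ∀ G : ℤ[X][X], (toC G).natDegree = G.natDegree := fun G => (h6 G).2.1
  have hS : ∀ (P P' : ℤ[X][X]) (k α : ℤ), Irr P → NonCol P → DivR P s →
      P'.natDegree = P.natDegree →
      (∀ x y : ℂ, x ≠ 0 → (toC P').evalEval x (x ^ k * y) = x ^ α * (toC P).evalEval x y) →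
      DivR P' s := by
    rintro G G' k α a b ⟨H, e1, e2, e3⟩ e4 e5
    have hG : toC G ≠ 0 := by
      intro h
      have := hdeg G
      rw [h, natDegree_zero] at this
      have := ((h6 G).2.2.2 a b).2.2.2
      omega
    obtain ⟨H', f1, f2⟩ := h10 _ _ H k α hG e1 e5
    exact ⟨H', f1, by rwa [f2], by rwa [f2, e4]⟩
  have key : ∀ G : ℤ[X][X], Irr G → NonCol G → DivR G s → G.natDegree ≤ (sw G).natDegree →
      (∀ P' : ℤ[X][X], Irr P' → NonCol P' → DivR P' s → m2 (toC P') = m2 (toC G) →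
        G.natDegree + (sw G).natDegree ≤ P'.natDegree + (sw P').natDegree) →
      c * s ≤ m2 (toC G) := by
    intro G a b e f g
    obtain ⟨B, kap, l₁, l₂, t1, t2, t3, t4, t5, t6, t7, t8, t9, t10, t11, t12⟩ :=
      reducedF hC h1 h2 h3 h5 h6 h7 h8 (fun G => DivR G s) hS G a b e f g
    refine h4 _ B _ kap l₁ l₂ s t1 t2 t3 t4 t5 t6 t7 t8 t9 t10 t11 t12 hs' ?_
    obtain ⟨-, d₁, e₁, u1, u2⟩ := (h11 G a b).2 s hs' e
    intro lam kap' v1 v2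
    refine (h12 _ B d₁ e₁ t1 u1 lam kap' v1 v2).trans (mul_le_mul_of_nonneg_right ?_ ?_)
    · have hd : 1 ≤ G.natDegree := ((h6 G).2.2.2 a b).2.2.2
      have he : (0 : ℝ) < (sw G).natDegree := by
        exact_mod_cast (by omega : 0 < (sw G).natDegree)
      rw [← (h6 G).1, hdeg, div_le_div_iff₀ he hs']
      nlinarith
    · unfold DD
      positivity
  have hex : ∃ n, ∃ G : ℤ[X][X], Irr G ∧ NonCol G ∧ DivR G s ∧ m2 (toC G) = mahler P ∧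
      G.natDegree + (sw G).natDegree = n :=
    ⟨_, F, hF1, hF2, (h11 F hF1 hF2).1 s hs hF4, hF3, rfl⟩
  obtain ⟨G, g1, g2, g0, g3, g4⟩ := Nat.find_spec hex
  have hmin : ∀ P' : ℤ[X][X], Irr P' → NonCol P' → DivR P' s → m2 (toC P') = mahler P →
      Nat.find hex ≤ P'.natDegree + (sw P').natDegree := fun P' a b z e =>
    Nat.find_min' hex ⟨P', a, b, z, e, rfl⟩
  rcases le_total G.natDegree (sw G).natDegree with h | h
  · rw [← g3]
    exact key G g1 g2 g0 h fun P' a b z e => by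
      rw [g4]; exact hmin P' a b z (e.trans g3)
  · obtain ⟨s1, s2, s3, -⟩ := (h6 G).2.2.2 g1 g2
    have hss : sw (sw G) = G := (h6 G).2.2.1
    rw [← g3, ← s3]
    refine key (sw G) s1 s2 ((h11 G g1 g2).2 s hs' g0).1 (by rwa [hss]) fun P' a b z e => ?_
    rw [hss, add_comm, g4]
    exact hmin P' a b z (e.trans (s3.trans g3))

end Pool.Agent.MP_670f9a_nt.GL
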