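import Pool.Agent.MP_670f9a_nt.H83.All
import Pool.Agent.MP_670f9a_nt.H83.MainF
import Pool.Agent.MP_670f9a_nt.GL.Alg1F
import Pool.Agent.MP_670f9a_nt.GL.Fam
import Pool.Agent.MP_670f9a_nt.GL.GaussF
import Pool.Agent.MP_670f9a_nt.GL.OneF
import Pool.Agent.MP_670f9a_nt.GL.FinalF
import Pool.Agent.MP_670f9a_nt.GL.ShF
import Pool.Agent.MP_670f9a_nt.GL.DivR
import Pool.Agent.MP_670f9a_nt.GL.Conv0F

/-!
The lower bound for the Mahler measure in terms of the number of geometric components, assembled.
-/

namespace Pool.Agent.MP_670f9a_nt.GL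

theorem allFam : SFam :=
  sFamOf sAlg1FOf allAlg2 allTransfer allComp allSw

theorem allGaussF : SGaussF :=
  sGaussFOf allLoc allChart allMu allCalc allComp allRho allTheta allGauss

theorem allOneF : SOneF :=
  sOneFOf allMu allCalc allPol allGam allRho allTheta allGauss allAreaT allExt

theorem allFinalF : SFinalF :=
  sFinalFOf allMu allGam allRho allVec allErr allMass allOneF

theorem allDivR : SDivR :=
  sDivROf allFam allSw

theorem allMainF : SMainF :=
  sMainFOf allCalc allHI allFirst allShear allFinalF allAxis allSw allTor allSh sConv0FOf sShFOf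
    allDivR allGaussF

end Pool.Agent.MP_670f9a_nt.GL
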