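import Pool.Agent.MP_670f9a_nt.H13.Spec2

/-!
An absolute lower bound for the Mahler measure of a plane curve with a two-dimensional Newton
polygon: definitions and statements of the steps.
In `ℂ[X][X]` the inner variable is `x` and the outer variable is `y`.
-/

namespace Pool.Agent.MP_670f9a_nt.GL

open Polynomial Real Finset MeasureTheory Metric Filter
open Pool.Agent.MP_670f9a_nt.NP (Phi Psi m2 toC mahler pts)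
open scoped ENNReal ComplexConjugate Topology

/-! ### The curve, its fibres and the calculus on it -/

/-- Exchange of the two variables. -/
noncomputable def sw {R : Type} [CommRing R] (Q : R[X][X]) : R[X][X] := Bivariate.swap Q

/-- The roots in `y` above `x`. -/
noncomputable def fib (Q : ℂ[X][X]) (x : ℂ) : Multiset ℂ := (Q.map (evalRingHom x)).roots

/-- The sum of a function over the fibre above `x`. -/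
noncomputable def fs (Q : ℂ[X][X]) (F : ℂ × ℂ → ℝ) (x : ℂ) : ℝ :=
  ((fib Q x).map fun y => F (x, y)).sum

/-- Points of the curve. -/
def On (Q : ℂ[X][X]) (p : ℂ × ℂ) : Prop := Q.evalEval p.1 p.2 = 0

/-- Points of the curve that do not lie above `B`. -/
def Reg (Q : ℂ[X][X]) (B : Finset ℂ) (p : ℂ × ℂ) : Prop := On Q p ∧ p.1 ∉ B

/-- Off the finite set `B` the fibres have `d` distinct points. -/
def Good (Q : ℂ[X][X]) (B : Finset ℂ) : Prop :=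
  1 ≤ Q.natDegree ∧ ∀ x ∉ B, (fib Q x).card = Q.natDegree ∧ (fib Q x).Nodup

/-- The slope `dy / dx` along the curve. -/
noncomputable def sl (Q : ℂ[X][X]) (p : ℂ × ℂ) : ℂ :=
  -(derivative (sw Q)).evalEval p.2 p.1 / (derivative Q).evalEval p.1 p.2

/-- The derivative along the curve in the direction `w` of the coordinate `x`. -/
noncomputable def D (Q : ℂ[X][X]) (w : ℂ) (F : ℂ × ℂ → ℝ) (p : ℂ × ℂ) : ℝ :=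
  fderiv ℝ F p (w, sl Q p * w)

/-- The complex derivative along the curve with respect to `x`. -/
noncomputable def dC (Q : ℂ[X][X]) (f : ℂ × ℂ → ℂ) (p : ℂ × ℂ) : ℂ := fderiv ℂ f p (1, sl Q p)

/-- The Laplacian along the curve in the coordinate `x`. -/
noncomputable def Lap (Q : ℂ[X][X]) (F : ℂ × ℂ → ℝ) (p : ℂ × ℂ) : ℝ :=
  D Q 1 (D Q 1 F) p + D Q Complex.I (D Q Complex.I F) p

/-- The inner product of two gradients along the curve. -/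
noncomputable def gr (Q : ℂ[X][X]) (F G : ℂ × ℂ → ℝ) (p : ℂ × ℂ) : ℝ :=
  D Q 1 F p * D Q 1 G p + D Q Complex.I F p * D Q Complex.I G p

/-- The Laplacian of the plane. -/
noncomputable def lap (f : ℂ → ℝ) (z : ℂ) : ℝ :=
  fderiv ℝ (fun u => fderiv ℝ f u 1) z 1 + fderiv ℝ (fun u => fderiv ℝ f u Complex.I) z Complex.I

/-- The area measure of the coordinate `x` on the curve. -/
noncomputable def mu (Q : ℂ[X][X]) : Measure (ℂ × ℂ) :=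
  (volume : Measure ℂ).bind fun x => ((fib Q x).map fun y => Measure.dirac (x, y)).sum

/-- Test functions. -/
def Test (Q : ℂ[X][X]) (B : Finset ℂ) (φ : ℂ × ℂ → ℝ) : Prop :=
  (∀ p, On Q p → ContDiffAt ℝ 2 φ p) ∧
    ∃ K : Set ℂ, IsCompact K ∧ Disjoint K (B : Set ℂ) ∧ ∀ p : ℂ × ℂ, p.1 ∉ K → φ p = 0

/-- Holomorphic roots above a disc. -/
def Sheets (Q : ℂ[X][X]) (B : Finset ℂ) (c : ℂ) (r : ℝ) (y : Fin Q.natDegree → ℂ → ℂ) : Prop :=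
  (∀ σ, AnalyticOnNhd ℂ (y σ) (ball c r)) ∧
    ∀ z ∈ ball c r, z ∉ B ∧ fib Q z = univ.val.map fun σ => y σ z

/-- The mean of the fibre sum over the circle `|x| = 1`. -/
noncomputable def Mx (Q : ℂ[X][X]) (φ : ℂ × ℂ → ℝ) : ℝ := circleAverage (fs Q φ) 0 1

/-- The mean of the fibre sum over the circle `|y| = 1`. -/
noncomputable def My (Q : ℂ[X][X]) (φ : ℂ × ℂ → ℝ) : ℝ := Mx (sw Q) fun p => φ p.swap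

def SLoc : Prop := ∀ (Q : ℂ[X][X]) (B : Finset ℂ) (K : Set ℂ), Good Q B → IsCompact K →
  Disjoint K (B : Set ℂ) → ∃ r : ℝ, 0 < r ∧ ∀ c ∈ K, ∃ y, Sheets Q B c r y

def SChart : Prop :=
  (∀ (Q : ℂ[X][X]) (x y : ℂ), (sw Q).evalEval y x = Q.evalEval x y) ∧
  (∀ (Q : ℂ[X][X]), sw (sw Q) = Q ∧ (∀ p, AnalyticAt ℂ (fun p : ℂ × ℂ => Q.evalEval p.1 p.2) p) ∧
    IsClosed {p | On Q p} ∧ Measurable (sl Q) ∧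
    (∀ j, (Q.coeff j).natDegree ≤ (sw Q).natDegree) ∧
    ∀ F : ℂ × ℂ → ℝ, (∀ w, Measurable (D Q w F)) ∧
      ∀ (w : ℂ) (p : ℂ × ℂ), D Q w F p = w.re * D Q 1 F p + w.im * D Q Complex.I F p) ∧
  ∀ (Q : ℂ[X][X]) (B : Finset ℂ), Good Q B →
    (∀ x ∉ B, ∀ y, y ∈ fib Q x ↔ On Q (x, y)) ∧
    (∀ p, Reg Q B p → (derivative Q).evalEval p.1 p.2 ≠ 0 ∧ AnalyticAt ℂ (sl Q) p ∧
      ∀ (F : ℂ × ℂ → ℝ) (w : ℂ), (ContDiffAt ℝ 1 F p → ContinuousAt (D Q w F) p) ∧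
        (ContDiffAt ℝ 2 F p → ContDiffAt ℝ 1 (D Q w F) p)) ∧
    ∀ (v : ℂ → ℂ) (z : ℂ), z ∉ B → AnalyticAt ℂ v z → (∀ᶠ u in 𝓝 z, On Q (u, v u)) →
      HasDerivAt v (sl Q (z, v z)) z ∧
      (∀ f : ℂ × ℂ → ℂ, DifferentiableAt ℂ f (z, v z) →
        HasDerivAt (fun u => f (u, v u)) (dC Q f (z, v z)) z) ∧
      ∀ F : ℂ × ℂ → ℝ, (DifferentiableAt ℝ F (z, v z) →
          ∀ w, fderiv ℝ (fun u => F (u, v u)) z w = D Q w F (z, v z)) ∧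
        (ContDiffAt ℝ 1 F (z, v z) → ContDiffAt ℝ 1 (fun u => F (u, v u)) z) ∧
        (ContDiffAt ℝ 2 F (z, v z) → ContDiffAt ℝ 2 (fun u => F (u, v u)) z ∧
          lap (fun u => F (u, v u)) z = Lap Q F (z, v z))

def SFs : Prop := ∀ (Q : ℂ[X][X]) (B : Finset ℂ), Good Q B →
  (∀ K : Set ℂ, IsCompact K → Disjoint K (B : Set ℂ) → IsCompact {p | On Q p ∧ p.1 ∈ K}) ∧
  (∀ (F : ℂ × ℂ → ℝ) (p : ℂ × ℂ) (U : Set ℂ), Reg Q B p → U ∈ 𝓝 p.1 → DifferentiableAt ℝ F p →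
    (∀ q, Reg Q B q → q.1 ∈ U → F q = 0) → ∀ w, D Q w F p = 0) ∧
  ∀ (F : ℂ × ℂ → ℝ) (x : ℂ), x ∉ B →
    ((∀ y ∈ fib Q x, ContinuousWithinAt F {p | On Q p} (x, y)) → ContinuousAt (fs Q F) x) ∧
    ((∀ y ∈ fib Q x, ContDiffAt ℝ 1 F (x, y)) →
      ContDiffAt ℝ 1 (fs Q F) x ∧ ∀ w, fderiv ℝ (fs Q F) x w = fs Q (D Q w F) x) ∧
    ((∀ y ∈ fib Q x, ContDiffAt ℝ 2 F (x, y)) →
      ContDiffAt ℝ 2 (fs Q F) x ∧ lap (fs Q F) x = fs Q (Lap Q F) x)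

def SMu : Prop := ∀ (Q : ℂ[X][X]) (B : Finset ℂ), Good Q B →
  SigmaFinite (mu Q) ∧ MeasurableSet {p | Reg Q B p} ∧ (∀ᵐ p ∂mu Q, Reg Q B p) ∧
  (∀ F : ℂ × ℂ → ℝ≥0∞, Measurable F →
    AEMeasurable (fun x => ((fib Q x).map fun y => F (x, y)).sum) volume ∧
    ∫⁻ p, F p ∂mu Q = ∫⁻ x, ((fib Q x).map fun y => F (x, y)).sum) ∧
  (∀ F : ℂ × ℂ → ℝ, Integrable F (mu Q) →
    Integrable (fs Q F) ∧ ∫ p, F p ∂mu Q = ∫ x, fs Q F x) ∧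
  (∀ F : ℂ × ℂ → ℝ, ContinuousOn F {p | Reg Q B p} → AEStronglyMeasurable F (mu Q)) ∧
  (∀ (F : ℂ × ℂ → ℝ) (K : Set ℂ) (M : ℝ), AEStronglyMeasurable F (mu Q) → IsCompact K →
    (∀ p, Reg Q B p → p.1 ∈ K → |F p| ≤ M) → (∀ p, Reg Q B p → p.1 ∉ K → F p = 0) →
    Integrable F (mu Q)) ∧
  (∀ (F : ℂ × ℂ → ℝ) (K : Set ℂ), ContinuousOn F {p | Reg Q B p} → IsCompact K →
    Disjoint K (B : Set ℂ) → (∀ p, Reg Q B p → p.1 ∉ K → F p = 0) → Integrable F (mu Q)) ∧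
  ∀ f : ℂ → ℝ, Integrable f →
    Integrable (fun p : ℂ × ℂ => f p.1) (mu Q) ∧ ∫ p, f p.1 ∂mu Q = Q.natDegree * ∫ x, f x

def SGreen : Prop := ∀ (Q : ℂ[X][X]) (B : Finset ℂ) (K : Set ℂ) (F : ℂ × ℂ → ℝ), Good Q B →
  IsCompact K → Disjoint K (B : Set ℂ) → (∀ p, Reg Q B p → ContDiffAt ℝ 1 F p) →
  (∀ p, Reg Q B p → p.1 ∉ K → F p = 0) →
  ∀ w, Integrable (D Q w F) (mu Q) ∧ ∫ p, D Q w F p ∂mu Q = 0

def SCalc : Prop :=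
  (∀ (Q : ℂ[X][X]) (p : ℂ × ℂ) (w : ℂ),
    (∀ F G : ℂ × ℂ → ℝ, DifferentiableAt ℝ F p → DifferentiableAt ℝ G p →
      D Q w (fun q => F q * G q) p = F p * D Q w G p + G p * D Q w F p) ∧
    (∀ (F : ℂ × ℂ → ℝ) (h : ℝ → ℝ), DifferentiableAt ℝ F p → DifferentiableAt ℝ h (F p) →
      D Q w (fun q => h (F q)) p = deriv h (F p) * D Q w F p) ∧
    (∀ (F : ℂ × ℂ → ℝ) (a : ℝ), D Q w (fun q => a * F q) p = a * D Q w F p) ∧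
    (∀ F : ℂ × ℂ → ℝ, (∀ᶠ q in 𝓝 p, F q = 0) → D Q w F p = 0 ∧ Lap Q F p = 0) ∧
    (∀ f : ℂ → ℝ, DifferentiableAt ℝ f p.1 → D Q w (fun q => f q.1) p = fderiv ℝ f p.1 w) ∧
    (∀ f : ℂ × ℂ → ℂ, DifferentiableAt ℂ f p →
      D Q w (fun q => (f q).re) p = (dC Q f p * w).re) ∧
    (∀ (f : ℂ × ℂ → ℂ) (T : ℂ → ℝ), DifferentiableAt ℂ f p → DifferentiableAt ℝ T (f p) →
      D Q w (fun q => T (f q)) p = fderiv ℝ T (f p) (dC Q f p * w)) ∧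
    ∀ F : ℂ × ℂ → ℝ, 0 ≤ gr Q F F p ∧ |D Q w F p| ≤ ‖w‖ * √(gr Q F F p)) ∧
  ∀ (Q : ℂ[X][X]) (B : Finset ℂ) (p : ℂ × ℂ), Good Q B → Reg Q B p →
    (∀ F G : ℂ × ℂ → ℝ, ContDiffAt ℝ 2 F p → ContDiffAt ℝ 2 G p →
      Lap Q (fun q => F q * G q) p = F p * Lap Q G p + 2 * gr Q F G p + G p * Lap Q F p ∧
      Lap Q (fun q => F q + G q) p = Lap Q F p + Lap Q G p) ∧
    (∀ (F : ℂ × ℂ → ℝ) (h : ℝ → ℝ), ContDiffAt ℝ 2 F p → ContDiffAt ℝ 2 h (F p) →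
      Lap Q (fun q => h (F q)) p =
        deriv h (F p) * Lap Q F p + deriv (deriv h) (F p) * gr Q F F p) ∧
    (∀ F : ℂ × ℂ → ℝ, ContDiffAt ℝ 2 F p → ContinuousAt (Lap Q F) p) ∧
    ∀ f : ℂ → ℝ, ContDiffAt ℝ 2 f p.1 → Lap Q (fun q => f q.1) p = lap f p.1

/-! ### Plane potential theory -/

/-- The logarithmic potential of the uniform probability on the disc of radius `R`. -/
noncomputable def hU (R : ℝ) (a : ℂ) : ℝ :=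
  if ‖a‖ ≤ R then log R + (‖a‖ ^ 2 / R ^ 2 - 1) / 2 else log ‖a‖

/-- The density of a perturbed uniform probability on a disc. -/
noncomputable def wt (c : ℂ) (r : ℝ) (ψ : ℂ → ℝ) (z : ℂ) : ℝ :=
  (ball c r).indicator (fun _ => (π * r ^ 2)⁻¹) z - lap ψ z / (2 * π)

/-- Polar coordinates and the inequality of Cauchy and Schwarz. -/
def SPol : Prop :=
  (∀ (f : ℂ → ℝ) (c : ℂ) (R : ℝ), 0 < R → IntegrableOn f (ball c R) →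
    ∫ z in ball c R, f z = 2 * π * ∫ ρ in (0 : ℝ)..R, ρ * circleAverage f c ρ) ∧
  (∀ (c a : ℂ) (R : ℝ), IntegrableOn (fun z => log ‖a - z‖) (ball c R)) ∧
  (∀ F : ℝ → ℝ≥0∞, Measurable F →
    ∫⁻ z : ℂ, F ‖z‖ = ∫⁻ ρ in Set.Ioi (0 : ℝ), ENNReal.ofReal (2 * π * ρ) * F ρ) ∧
  (Integrable (fun z : ℂ => 1 / (1 + ‖z‖ ^ 2) ^ 2) ∧ ∫ z : ℂ, 1 / (1 + ‖z‖ ^ 2) ^ 2 = π) ∧
  (∀ s : ℝ, 0 < s → IntegrableOn (fun z : ℂ => 1 / ‖z‖ ^ 2) {z | |log ‖z‖| ≤ s} ∧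
    ∫ z in {z : ℂ | |log ‖z‖| ≤ s}, 1 / ‖z‖ ^ 2 = 4 * π * s) ∧
  ∀ (μ : Measure (ℂ × ℂ)) (F f g : ℂ × ℂ → ℝ), AEStronglyMeasurable F μ → Integrable f μ →
    Integrable g μ → (∀ᵐ p ∂μ, 0 ≤ f p ∧ 0 ≤ g p ∧ |F p| ≤ √(f p) * √(g p)) →
    Integrable F μ ∧ |∫ p, F p ∂μ| ≤ √(∫ p, f p ∂μ) * √(∫ p, g p ∂μ)

def SFund : Prop := ∀ ψ : ℂ → ℝ, ContDiff ℝ 2 ψ → HasCompactSupport ψ →
  Continuous (lap ψ) ∧ (∀ z ∉ tsupport ψ, lap ψ z = 0) ∧ Integrable (lap ψ) ∧ ∫ z, lap ψ z = 0 ∧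
  (∀ w, ∫ z, fderiv ℝ ψ z w = 0) ∧
  ∀ a : ℂ, Integrable (fun z => log ‖z - a‖ * lap ψ z) ∧
    ∫ z, log ‖z - a‖ * lap ψ z = 2 * π * ψ a

def SHarm : Prop := ∀ (ψ : ℂ → ℝ) (g : ℂ → ℂ) (c : ℂ) (r : ℝ), ContDiff ℝ 2 ψ →
  tsupport ψ ⊆ ball c r → AnalyticOnNhd ℂ g (ball c r) → (∀ z ∈ ball c r, g z ≠ 0) →
  Integrable (fun z => log ‖g z‖ * lap ψ z) ∧ ∫ z, log ‖g z‖ * lap ψ z = 0

def SDisc : Prop := ∀ R : ℝ, 0 < R →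
  (∀ c a : ℂ, IntegrableOn (fun z => log ‖a - z‖) (ball c R) ∧
    ∫ z in ball c R, log ‖a - z‖ = π * R ^ 2 * hU R (a - c)) ∧
  (∀ (c : ℂ) (g : ℂ → ℂ), AnalyticOnNhd ℂ g (closedBall c R) → (∀ z ∈ closedBall c R, g z ≠ 0) →
    IntegrableOn (fun z => log ‖g z‖) (ball c R) ∧
    ∫ z in ball c R, log ‖g z‖ = π * R ^ 2 * log ‖g c‖) ∧
  (∀ (c : ℂ) (g : ℂ[X]), IntegrableOn (fun z => log ‖g.eval z‖) (ball c R)) ∧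
  Continuous (hU R) ∧
  (∀ a : ℂ, (R ≤ ‖a‖ → hU R a = log ‖a‖) ∧ (a ≠ 0 → log ‖a‖ ≤ hU R a) ∧
    (a ≠ 0 → ‖a‖ ≤ R / 2 → log ‖a‖ + 1 / 6 ≤ hU R a)) ∧
  ∫ z in ball (0 : ℂ) R, hU R z = π * R ^ 2 * (log R - 1 / 4) ∧
  ∫ z in ball (0 : ℂ) R, log⁺ ‖z‖ = π * R ^ 2 * hU R 1

def SJM : Prop := ∀ (c : ℂ) (r : ℝ) (f : ℂ → ℂ) (Z : Finset ℂ) (ψ : ℂ → ℝ), 0 < r →
  AnalyticOnNhd ℂ f (ball c (2 * r)) → f c ≠ 0 → (∀ a ∈ Z, a ∈ ball c (2 * r) ∧ f a = 0) →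
  ContDiff ℝ 2 ψ → tsupport ψ ⊆ ball c (r / 2) → (∀ z, |ψ z| ≤ 1 / 6) →
  Integrable (fun z => log ‖f z‖ * wt c r ψ z) ∧
  log ‖f c‖ + ∑ a ∈ Z, (hU r (a - c) - log ‖a - c‖ - ψ a) ≤ ∫ z, log ‖f z‖ * wt c r ψ z

def SMove : Prop := ∀ (c : ℂ) (r : ℝ) (f : ℂ → ℂ) (Z : Finset ℂ) (ψ Y : ℂ → ℝ), 0 < r →
  AnalyticOnNhd ℂ f (ball c (2 * r)) → f c ≠ 0 → (∀ a ∈ Z, a ∈ ball c (2 * r) ∧ f a = 0) →
  ContDiff ℝ 2 ψ → tsupport ψ ⊆ ball c (r / 2) → (∀ z, |ψ z| ≤ 1 / 6) →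
  (∀ z, |lap ψ z| ≤ 2 / r ^ 2) → ContinuousOn Y (ball c (2 * r)) →
  IntegrableOn Y (ball c r) ∧ Integrable (fun z => Y z * lap ψ z) ∧
  ∃ z ∈ ball c r, f z ≠ 0 ∧
    log ‖f c‖ + ∑ a ∈ Z, (hU r (a - c) - log ‖a - c‖ - ψ a) +
      ((π * r ^ 2)⁻¹ * (∫ u in ball c r, Y u) - (2 * π)⁻¹ * ∫ u, Y u * lap ψ u) ≤ log ‖f z‖ + Y z

/-! ### The determinant and its upper bound -/

/-- The determinant of the monomials `x ^ b y ^ a`, `b ≤ k`, `a < d`, at `(k + 1) d` points. -/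
noncomputable def Dt (k d : ℕ) (p : Fin (k + 1) × Fin d → ℂ × ℂ) : ℂ :=
  (Matrix.of fun i j : Fin (k + 1) × Fin d => (p i).1 ^ (j.1 : ℕ) * (p i).2 ^ (j.2 : ℕ)).det

/-- A family of points with `d` new points in front. -/
def addF {k d : ℕ} (q : Fin d → ℂ × ℂ) (p : Fin (k + 1) × Fin d → ℂ × ℂ) :
    Fin (k + 1 + 1) × Fin d → ℂ × ℂ :=
  fun i => Fin.cases (motive := fun _ => ℂ × ℂ) (q i.2) (fun b => p (b, i.2)) i.1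

/-- The logarithm of the Vandermonde determinant of a fibre. -/
noncomputable def lv (Q : ℂ[X][X]) (x : ℂ) : ℝ :=
  1 / 2 * ((fib Q x).map fun y => ((fib Q x).map fun y' => log ‖y - y'‖).sum).sum

/-- Admissible one-point weights. -/
def Adm (Q : ℂ[X][X]) (Y : ℂ × ℂ → ℝ) : Prop :=
  ContinuousOn Y {p | On Q p} ∧ ∀ R : ℝ, ∃ M : ℝ, ∀ p, On Q p → ‖p.1‖ ≤ R → |Y p| ≤ M

/-- One can add `d` points of the curve with the gain described by `h`, `E` and `C₀`. -/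
def StepOK (Q : ℂ[X][X]) (h : ℂ × ℂ → ℝ) (E : (ℂ × ℂ → ℝ) → ℝ) (C₀ : ℝ) : Prop :=
  ∀ (k : ℕ) (p : Fin (k + 1) × Fin Q.natDegree → ℂ × ℂ) (Y : ℂ × ℂ → ℝ), (∀ i, On Q (p i)) →
    Dt k Q.natDegree p ≠ 0 → Adm Q Y →
    ∃ q : Fin Q.natDegree → ℂ × ℂ, (∀ σ, On Q (q σ)) ∧ Dt (k + 1) Q.natDegree (addF q p) ≠ 0 ∧
      log ‖Dt k Q.natDegree p‖ + ∑ i, h (p i) + E Y - C₀ ≤
        log ‖Dt (k + 1) Q.natDegree (addF q p)‖ + ∑ σ, (Y (q σ) - Q.natDegree * log⁺ ‖(q σ).2‖)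

/-- Bounded probability densities on a disc. -/
def Dens (s : ℂ → ℝ) (R S : ℝ) : Prop :=
  Measurable s ∧ (∀ z, 0 ≤ s z ∧ s z ≤ S) ∧ (∀ z, R ≤ ‖z‖ → s z = 0) ∧ ∫ z, s z = 1

def SAddF : Prop :=
  (∀ (k d : ℕ) (p : Fin (k + 1) × Fin d → ℂ × ℂ),
    (∀ (c : ℂ) (y : Fin d → ℂ), ‖Dt (k + 1) d (addF (fun σ => (c, y σ)) p)‖ =
      ‖(Matrix.vandermonde y).det‖ * (∏ i, ‖(p i).1 - c‖) * ‖Dt k d p‖) ∧
    (Dt k d p ≠ 0 → Function.Injective p) ∧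
    (∀ (i : Fin (k + 1) × Fin d) (v : ℂ → ℂ) (U : Set ℂ), AnalyticOnNhd ℂ v U →
      AnalyticOnNhd ℂ (fun z => Dt k d (Function.update p i (z, v z))) U) ∧
    (∀ (q : Fin d → ℂ × ℂ) (F : ℂ × ℂ → ℝ),
      ∑ i, F (addF q p i) = ∑ σ, F (q σ) + ∑ i, F (p i)) ∧
    ∀ (q : Fin d → ℂ × ℂ) (σ : Fin d) (a : ℂ × ℂ),
      addF (Function.update q σ a) p = Function.update (addF q p) (0, σ) a) ∧
  (∀ (k d : ℕ) (x : Fin (k + 1) → ℂ) (y : Fin (k + 1) → Fin d → ℂ), Function.Injective x →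
    (∀ b, Function.Injective (y b)) → Dt k d (fun i => (x i.1, y i.1 i.2)) ≠ 0) ∧
  (∀ (d : ℕ) (y : Fin d → ℂ), Function.Injective y → (Matrix.vandermonde y).det ≠ 0 ∧
    log ‖(Matrix.vandermonde y).det‖ = 1 / 2 * ∑ σ, ∑ σ', log ‖y σ - y σ'‖) ∧
  ∀ (d : ℕ) (s : Multiset ℂ), s.card = d → s.Nodup →
    ∃ y : Fin d → ℂ, Function.Injective y ∧ s = univ.val.map y

def SHad : Prop := ∀ (k d : ℕ) (p : Fin (k + 1) × Fin d → ℂ × ℂ) (ρ : Fin k → ℝ),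
  (∀ b, 0 < ρ b) → Dt k d p ≠ 0 →
  log ‖Dt k d p‖ ≤ ((k + 1) * d : ℕ) * log ((k + 1) * d : ℕ) +
    ∑ i, (d * log⁺ ‖(p i).2‖ + ∑ b, log (max ‖(p i).1‖ (ρ b))) -
    d / 2 * (∑ b, ∑ b', log (max (ρ b) (ρ b')) + ∑ b, log (ρ b))

def SHadR : Prop := ∀ (n k j d : ℕ) (R : ℝ) (p : Fin (n + 1) × Fin d → ℂ × ℂ), n = k + j →
  1 ≤ j → 1 ≤ R → Dt n d p ≠ 0 →
  log ‖Dt n d p‖ ≤ 2 * ((n + 1) * d : ℕ) * log ((n + 1) * d : ℕ) + ((n + 1) * d : ℕ) +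
    ∑ i, (d * log⁺ ‖(p i).2‖ + j * hU R (p i).1 + k * log⁺ ‖(p i).1‖) -
    d * (j ^ 2 * (log R - 1 / 4) / 2 + j * k * hU R 1)

def SJunk : Prop := ∀ (Q : ℂ[X][X]) (B : Finset ℂ) (R : ℝ), Good Q B → 0 < R →
  ∃ J : ℂ → ℝ, IntegrableOn J (ball 0 R) ∧
    ∀ x ∉ B, ‖x‖ < R → J x ≤ lv Q x - Q.natDegree * fs Q (fun p => log⁺ ‖p.2‖) x

def SAdm : Prop := ∀ (Q : ℂ[X][X]) (B : Finset ℂ), Good Q B →
  (∀ (Y : ℂ × ℂ → ℝ) (c : ℂ) (R : ℝ), Adm Q Y → IntegrableOn (fs Q Y) (ball c R)) ∧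
  (∀ (Y : ℂ × ℂ → ℝ) (s : ℂ → ℝ) (R S : ℝ), Adm Q Y → Dens s R S →
    Integrable fun z => fs Q Y z * s z) ∧
  (∀ (s : ℂ → ℝ) (R S : ℝ) (a : ℂ), Dens s R S → Integrable fun z => log ‖a - z‖ * s z) ∧
  ∀ φ, Test Q B φ → Adm Q φ ∧ ContDiff ℝ 2 (fs Q φ) ∧ HasCompactSupport (fs Q φ) ∧
    (∀ x ∉ B, lap (fs Q φ) x = fs Q (Lap Q φ) x) ∧ Integrable (gr Q φ φ) (mu Q) ∧
    (∀ a : ℝ, Test Q B fun p => a * φ p) ∧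
    (∃ M : ℝ, ∀ p, Reg Q B p → |φ p| ≤ M ∧ |D Q 1 φ p| ≤ M ∧ |D Q Complex.I φ p| ≤ M ∧
      |Lap Q φ p| ≤ M) ∧
    ∀ Y : ℂ × ℂ → ℝ, ContinuousOn Y {p | On Q p} → Integrable (fun p => Y p * Lap Q φ p) (mu Q)

def SStepU : Prop := ∀ (Q : ℂ[X][X]) (B : Finset ℂ) (u : ℂ → ℝ) (R S : ℝ), Good Q B →
  Dens u R S → ∃ C₀, StepOK Q (fun p => ∫ z, log ‖p.1 - z‖ * u z)
    (fun Y => ∫ z, fs Q Y z * u z) C₀

def SFibMove : Prop := ∀ (Q : ℂ[X][X]) (B : Finset ℂ) (c : ℂ) (r : ℝ)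
  (y : Fin Q.natDegree → ℂ → ℂ) (Φ Y : ℂ × ℂ → ℝ) (k : ℕ)
  (p : Fin (k + 1) × Fin Q.natDegree → ℂ × ℂ), Good Q B → 0 < r → Sheets Q B c (2 * r) y →
  (∀ q, On Q q → ContDiffAt ℝ 2 Φ q) → (∀ q : ℂ × ℂ, q.1 ∉ closedBall c (r / 4) → Φ q = 0) →
  (∀ q, Reg Q B q → |Φ q| ≤ 1 / 6 ∧ |Lap Q Φ q| ≤ 2 / r ^ 2) → ContinuousOn Y {q | On Q q} →
  (∀ i, On Q (p i) ∧ (p i).1 ≠ c) → Dt k Q.natDegree p ≠ 0 →
  ∃ q : Fin Q.natDegree → ℂ × ℂ, (∀ σ, On Q (q σ) ∧ (q σ).1 ∈ ball c r) ∧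
    Dt (k + 1) Q.natDegree (addF q p) ≠ 0 ∧
    log ‖Dt k Q.natDegree p‖ + ∑ i, (hU r ((p i).1 - c) - Φ (p i)) + lv Q c +
      ((π * r ^ 2)⁻¹ * (∫ z in ball c r, fs Q Y z) - (2 * π)⁻¹ * ∫ q, Y q * Lap Q Φ q ∂mu Q) ≤
      log ‖Dt (k + 1) Q.natDegree (addF q p)‖ + ∑ σ, Y (q σ)

/-- Averages over the centre of the disc. -/
def SAvg1 : Prop := ∀ (A : Set ℂ) (r : ℝ), IsCompact A → 0 < volume.real A → 0 < r →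
  ∃ (s : ℂ → ℝ) (R S : ℝ), Dens s R S ∧ ∀ f : ℂ → ℝ, (∀ R', IntegrableOn f (ball 0 R')) →
    IntegrableOn (fun c => ∫ z in ball c r, f z) A ∧
    (volume.real A)⁻¹ * ∫ c in A, (π * r ^ 2)⁻¹ * ∫ z in ball c r, f z = ∫ z, f z * s z

def SAvg2 : Prop := ∀ (Q : ℂ[X][X]) (B : Finset ℂ) (φ Y : ℂ × ℂ → ℝ) (K A : Set ℂ) (χ : ℂ → ℝ)
  (r : ℝ), Good Q B → Test Q B φ → IsCompact K → (∀ p : ℂ × ℂ, p.1 ∉ K → φ p = 0) →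
  IsCompact A → ContDiff ℝ 2 χ → (∀ z, r ≤ ‖z‖ → χ z = 0) → (∀ x ∈ K, closedBall x r ⊆ A) →
  ContinuousOn Y {p | On Q p} →
  IntegrableOn (fun c => ∫ p, Y p * Lap Q (fun q => φ q * χ (q.1 - c)) p ∂mu Q) A ∧
  ∫ c in A, ∫ p, Y p * Lap Q (fun q => φ q * χ (q.1 - c)) p ∂mu Q =
    (∫ z, χ z) * ∫ p, Y p * Lap Q φ p ∂mu Q

def SStepG : Prop := ∀ (Q : ℂ[X][X]) (B : Finset ℂ) (φ : ℂ × ℂ → ℝ), Good Q B → Test Q B φ →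
  ∃ (s : ℂ → ℝ) (R S τ₀ C₀ : ℝ), 0 < τ₀ ∧ Dens s R S ∧ ∀ τ, 0 ≤ τ → τ ≤ τ₀ →
    StepOK Q (fun p => (∫ z, log ‖p.1 - z‖ * s z) - τ * φ p)
      (fun Y => (∫ z, fs Q Y z * s z) - τ / (2 * π) * ∫ p, Y p * Lap Q φ p ∂mu Q) C₀

def SStep : Prop := ∀ (Q : ℂ[X][X]) (B : Finset ℂ) (φ : ℂ × ℂ → ℝ), Good Q B → Test Q B φ →
  ∃ R τ₀ C₀ : ℝ, 1 ≤ R ∧ 0 < τ₀ ∧ ∀ τ, 0 ≤ τ → τ ≤ τ₀ →
    StepOK Q (fun p => hU R p.1 - τ * φ p)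
      (fun Y => (π * R ^ 2)⁻¹ * (∫ z in ball 0 R, fs Q Y z) -
        τ / (2 * π) * ∫ p, Y p * Lap Q φ p ∂mu Q) C₀

def SEval : Prop := ∀ (Q : ℂ[X][X]) (B : Finset ℂ) (φ : ℂ × ℂ → ℝ) (R : ℝ), Good Q B →
  Test Q B φ → 0 < R →
  ∫ p, hU R p.1 * Lap Q φ p ∂mu Q = 2 * π * ((π * R ^ 2)⁻¹ * ∫ z in ball 0 R, fs Q φ z) ∧
  ∫ p, log⁺ ‖p.1‖ * Lap Q φ p ∂mu Q = 2 * π * Mx Q φ ∧
  ∫ p, φ p * Lap Q φ p ∂mu Q = -∫ p, gr Q φ φ p ∂mu Q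

/-- Iteration of the step. -/
def SIter : Prop := ∀ (Q : ℂ[X][X]) (h W : ℂ × ℂ → ℝ) (E : (ℂ × ℂ → ℝ) → ℝ) (C₀ : ℝ),
  StepOK Q h E C₀ → (∀ i : ℕ, Adm Q fun p => i * h p - W p) →
  ∀ (j k : ℕ) (p : Fin (k + 1) × Fin Q.natDegree → ℂ × ℂ), (∀ i, On Q (p i)) →
    Dt k Q.natDegree p ≠ 0 →
    ∃ (n : ℕ) (p' : Fin (n + 1) × Fin Q.natDegree → ℂ × ℂ), n = k + j ∧
      Dt n Q.natDegree p' ≠ 0 ∧
      log ‖Dt k Q.natDegree p‖ + ∑ i, (j * h (p i) - W (p i) - Q.natDegree * log⁺ ‖(p i).2‖) +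
          ∑ i ∈ range j, E (fun q => i * h q - W q) - j * C₀ ≤
        log ‖Dt n Q.natDegree p'‖ - ∑ i, (W (p' i) + Q.natDegree * log⁺ ‖(p' i).2‖)

def SUB : Prop := ∀ (Q : ℂ[X][X]) (B : Finset ℂ) (φ : ℂ × ℂ → ℝ) (ε : ℝ), Good Q B →
  Test Q B φ → 0 < ε → ∃ k₀ : ℕ, ∀ k, k₀ ≤ k → ∀ p : Fin (k + 1) × Fin Q.natDegree → ℂ × ℂ,
    (∀ i, On Q (p i) ∧ ‖(p i).2‖ = 1) → Dt k Q.natDegree p ≠ 0 →
    log ‖Dt k Q.natDegree p‖ ≤ ∑ i, k * (log⁺ ‖(p i).1‖ + φ (p i)) - k ^ 2 * Mx Q φ +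
      k ^ 2 * ((∫ p, gr Q φ φ p ∂mu Q) / (4 * π)) + ε * k ^ 2

/-! ### The arithmetic lower bound -/

/-- A polynomial over a field, read over `ℂ`. -/
noncomputable def mp {K : Type} [Field K] (σ : K →+* ℂ) (Q : K[X][X]) : ℂ[X][X] :=
  Q.map (mapRingHom σ)

/-- Evaluation at a family of points. -/
noncomputable def ev {K : Type} [Field K] {l : ℕ} (σ : K →+* ℂ) (p : Fin l → ℂ × ℂ) :
    MvPolynomial (Fin l ⊕ Fin l) K →+* ℂ :=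
  MvPolynomial.eval₂Hom σ (Sum.elim (fun i => (p i).1) fun i => (p i).2)

/-- `γ` is integral as a form of degree `E` in the coefficients of `Q`. -/
def Int0 {K : Type} [Field K] (Q : K[X][X]) (E : ℕ) (γ : K) : Prop :=
  ∀ (V : ValuationSubring K) (t : K), (∀ a b, t * (Q.coeff a).coeff b ∈ V) → t ^ E * γ ∈ V

/-- Irreducible over `ℚ`. -/
def Irr (P : ℤ[X][X]) : Prop := Irreducible (P.map (mapRingHom (Int.castRingHom ℚ)))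

/-- The embedding attached to an automorphism. -/
noncomputable def emb (K : IntermediateField ℚ ℂ) (g : K ≃ₐ[ℚ] K) : K →+* ℂ :=
  (algebraMap K ℂ).comp (g : K →+* K)

def SAlg1 : Prop := ∀ P : ℤ[X][X], 1 ≤ P.natDegree →
  ∃ (K : IntermediateField ℚ ℂ) (Q : K[X][X]), FiniteDimensional ℚ K ∧ IsGalois ℚ K ∧
    Irreducible (mp (algebraMap K ℂ) Q) ∧ Q ∣ P.map (mapRingHom (Int.castRingHom K))

def SAlg2 : Prop := ∀ (P : ℤ[X][X]) (K : IntermediateField ℚ ℂ) [FiniteDimensional ℚ K]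
  [IsGalois ℚ K] (Q : K[X][X]), Irr P → ¬ IsUnit Q → Q ∣ P.map (mapRingHom (Int.castRingHom K)) →
  (∀ g, mp (emb K g) Q ∣ toC P) ∧
  ∃ (t : ℕ) (q : ℚ), 1 ≤ t ∧ q ≠ 0 ∧ ∏ g, mp (emb K g) Q = C (C (q : ℂ)) * toC P ^ t

def SAlg3 : Prop := ∀ (P : ℤ[X][X]) (K : IntermediateField ℚ ℂ) [FiniteDimensional ℚ K]
  [IsGalois ℚ K] (Q : K[X][X]) (t : ℕ) (q : ℚ), Q ≠ 0 → q ≠ 0 →
  ∏ g, mp (emb K g) Q = C (C (q : ℂ)) * toC P ^ t →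
  ∀ (γ : K) (E : ℕ), γ ≠ 0 → Int0 Q E γ → E * log ‖(q : ℂ)‖ ≤ ∑ g, log ‖emb K g γ‖

def SResMv : Prop := ∀ (K : Type) [Field K] (l : ℕ) (Q : K[X][X])
  (G : MvPolynomial (Fin (l + 1) ⊕ Fin (l + 1)) K) (k E : ℕ), 1 ≤ (sw Q).natDegree →
  (∀ i, G.degreeOf (Sum.inl i) ≤ k) → (∀ m, Int0 Q E (G.coeff m)) →
  ∃ R : (MvPolynomial (Fin l ⊕ Fin l) K)[X],
    (∀ j, (∀ i, (R.coeff j).degreeOf (Sum.inl i) ≤ (sw Q).natDegree * k) ∧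
      ∀ m, Int0 Q (k + (sw Q).natDegree * E) ((R.coeff j).coeff m)) ∧
    ∀ (σ : K →+* ℂ) (p : Fin l → ℂ × ℂ) (ξ : ℂ),
      (fib (sw (mp σ Q)) ξ).card = (sw Q).natDegree →
      ‖(R.map (ev σ p)).eval ξ‖ = ‖((sw (mp σ Q)).map (evalRingHom ξ)).leadingCoeff‖ ^ k *
        ((fib (sw (mp σ Q)) ξ).map fun x => ‖ev σ (Fin.cons (x, ξ) p) G‖).prod

def STransfer : Prop :=
  (∀ (K : Type) [Field K] (σ : K →+* ℂ) (Q : K[X][X]), (mp σ Q).natDegree = Q.natDegree ∧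
    sw (mp σ Q) = mp σ (sw Q)) ∧
  (∀ (K : Type) [Field K] (l : ℕ) (σ σ' : K →+* ℂ) (Q : K[X][X])
    (G : MvPolynomial (Fin l ⊕ Fin l) K), (∀ p, (∀ i, On (mp σ Q) (p i)) → ev σ p G = 0) →
    ∀ p, (∀ i, On (mp σ' Q) (p i)) → ev σ' p G = 0) ∧
  (∀ (K : Type) [Field K] (l : ℕ) (σ : K →+* ℂ) (p : Fin l → ℂ × ℂ)
    (G : MvPolynomial (Fin (l + 1) ⊕ Fin (l + 1)) K),
    ∃ H : ℂ[X][X], ∀ x y, H.evalEval x y = ev σ (Fin.cons (x, y) p) G) ∧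
  ∀ (K : Type) [Field K] (Q : K[X][X]) (k d : ℕ),
    ∃ G : MvPolynomial (Fin ((k + 1) * d) ⊕ Fin ((k + 1) * d)) K,
      (∀ i, G.degreeOf (Sum.inl i) ≤ k) ∧ (∀ m, Int0 Q 0 (G.coeff m)) ∧
      ∀ (σ : K →+* ℂ) (p : Fin ((k + 1) * d) → ℂ × ℂ),
        ev σ p G = Dt k d fun i => p (finProdFinEquiv i)

def SNonvan : Prop := ∀ Q H : ℂ[X][X], Irreducible Q → 1 ≤ (sw Q).natDegree →
  (∃ p, On Q p ∧ H.evalEval p.1 p.2 ≠ 0) →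
  ∃ ξ, (fib (sw Q) ξ).card = (sw Q).natDegree ∧ ∀ x ∈ fib (sw Q) ξ, H.evalEval x ξ ≠ 0

def SPick : Prop := ∀ (Q : ℂ[X][X]) (r : ℂ[X]) (g : ℂ × ℂ → ℂ) (k : ℕ) (Y : ℂ × ℂ → ℝ),
  1 ≤ (sw Q).natDegree → r ≠ 0 → CircleIntegrable (fs (sw Q) fun p => Y p.swap) 0 1 →
  (∀ ξ, (fib (sw Q) ξ).card = (sw Q).natDegree →
    ‖r.eval ξ‖ = ‖((sw Q).map (evalRingHom ξ)).leadingCoeff‖ ^ k *
      ((fib (sw Q) ξ).map fun x => ‖g (x, ξ)‖).prod) →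
  ∃ p, On Q p ∧ ‖p.2‖ = 1 ∧ g p ≠ 0 ∧
    log ‖r.leadingCoeff‖ - k * m2 Q + My Q Y ≤
      (sw Q).natDegree * (log ‖g p‖ + (Y p - k * log⁺ ‖p.1‖))

def SLB : Prop := ∀ (K : Type) [Field K] (ι : Type) [Fintype ι] (σ : ι → K →+* ℂ) (i₀ : ι)
  (Q : K[X][X]) (κ : ℝ), Irreducible (mp (σ i₀) Q) → 1 ≤ (sw Q).natDegree →
  (∀ (γ : K) (E : ℕ), γ ≠ 0 → Int0 Q E γ → E * κ ≤ ∑ i, log ‖σ i γ‖) →
  ∀ (l : ℕ) (G : MvPolynomial (Fin l ⊕ Fin l) K) (k E : ℕ) (Y : ℂ × ℂ → ℝ),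
    (∀ i, G.degreeOf (Sum.inl i) ≤ k) → (∀ m, Int0 Q E (G.coeff m)) →
    (∃ p, (∀ j, On (mp (σ i₀) Q) (p j)) ∧ ev (σ i₀) p G ≠ 0) →
    (∀ i, CircleIntegrable (fs (sw (mp (σ i) Q)) fun p => Y p.swap) 0 1) →
    ∃ p : ι → Fin l → ℂ × ℂ, (∀ i j, On (mp (σ i) Q) (p i j) ∧ ‖(p i j).2‖ = 1) ∧
      (∀ i, ev (σ i) (p i) G ≠ 0) ∧
      E * κ + l / (sw Q).natDegree *
          (k * (κ - ∑ i, m2 (mp (σ i) Q)) + ∑ i, My (mp (σ i) Q) Y) ≤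
        ∑ i, (log ‖ev (σ i) (p i) G‖ + ∑ j, (Y (p i j) - k * log⁺ ‖(p i j).1‖))

def SComp : Prop :=
  (∀ (P Q : ℂ[X][X]) (B : Finset ℂ), Good P B → Q ∣ P → 1 ≤ Q.natDegree →
    Good Q B ∧ (∀ φ, Test P B φ → Test Q B φ) ∧ ∀ p, Reg Q B p → sl Q p = sl P p) ∧
  (∀ (Q : ℂ[X][X]) (B B' : Finset ℂ) (φ : ℂ × ℂ → ℝ), Good Q B → Good (sw Q) B' → Test Q B φ →
    CircleIntegrable (fs Q φ) 0 1 ∧ CircleIntegrable (fs (sw Q) fun p => φ p.swap) 0 1) ∧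
  ∀ (ι : Type) [Fintype ι] (P : ℂ[X][X]) (Q : ι → ℂ[X][X]) (t : ℕ) (q : ℂ), P ≠ 0 → q ≠ 0 →
    ∏ i, Q i = C (C q) * P ^ t →
    ∑ i, (Q i).natDegree = t * P.natDegree ∧ ∏ i, sw (Q i) = C (C q) * sw P ^ t ∧
    ∑ i, m2 (Q i) = log ‖q‖ + t * m2 P ∧
    ∀ x, P.map (evalRingHom x) ≠ 0 → ∀ F, ∑ i, fs (Q i) F x = t * fs P F x

def SSum : Prop := ∀ (ι : Type) [Fintype ι] (P : ℂ[X][X]) (Q : ι → ℂ[X][X]) (t : ℕ) (q : ℂ)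
  (B B' : Finset ℂ) (φ : ℂ × ℂ → ℝ), Good P B → Good (sw P) B' → Test P B φ → q ≠ 0 →
  (∀ i, Q i ∣ P ∧ 1 ≤ (Q i).natDegree ∧ 1 ≤ (sw (Q i)).natDegree) →
  ∏ i, Q i = C (C q) * P ^ t →
  (∀ i, Good (sw (Q i)) B') ∧ ∑ i, Mx (Q i) φ = t * Mx P φ ∧ ∑ i, My (Q i) φ = t * My P φ ∧
    ∑ i, ∫ p, gr (Q i) φ φ p ∂mu (Q i) = t * ∫ p, gr P φ φ p ∂mu P

/-- The index inequality. -/
def HI (Q : ℂ[X][X]) (B : Finset ℂ) (m : ℝ) : Prop := ∀ φ, Test Q B φ →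
  (sw Q).natDegree * Mx Q φ - Q.natDegree * My Q φ ≤
    Q.natDegree * m + (sw Q).natDegree * ((∫ p, gr Q φ φ p ∂mu Q) / (4 * π))

def SHI : Prop := ∀ (P : ℤ[X][X]) (B B' : Finset ℂ), Irr P → Good (toC P) B →
  Good (sw (toC P)) B' → HI (toC P) B (m2 (toC P))

/-! ### The test functions -/

/-- The sign of a real number. -/
noncomputable def sg (x : ℝ) : ℝ := if 0 < x then 1 else if x < 0 then -1 else 0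

/-- A cut-off function: `1` up to `1 / 4`, `0` from `1` on. -/
noncomputable def gam (s : ℝ) : ℝ := 1 - Real.smoothTransition ((4 * s - 1) / 3)

/-- A curve in the torus with both projections generically unramified. -/
def Tor (Q : ℂ[X][X]) (B : Finset ℂ) : Prop :=
  Good Q B ∧ 0 ∈ B ∧ (∀ p, Reg Q B p → p.2 ≠ 0) ∧ ∃ B', Good (sw Q) B'

/-- The product of the two degrees. -/
noncomputable def DD (Q : ℂ[X][X]) : ℝ := (Q.natDegree : ℝ) * (sw Q).natDegree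

/-- The scaled logarithm of `|x|`. -/
noncomputable def la (Q : ℂ[X][X]) (p : ℂ × ℂ) : ℝ := (sw Q).natDegree * log ‖p.1‖

/-- The scaled logarithm of `|y|`. -/
noncomputable def lb (Q : ℂ[X][X]) (p : ℂ × ℂ) : ℝ := Q.natDegree * log ‖p.2‖

/-- The complex derivative of the scaled logarithm of `x`. -/
noncomputable def da (Q : ℂ[X][X]) (p : ℂ × ℂ) : ℂ := (sw Q).natDegree / p.1

/-- The complex derivative of the scaled logarithm of `y`. -/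
noncomputable def db (Q : ℂ[X][X]) (p : ℂ × ℂ) : ℂ := Q.natDegree * (sl Q p / p.2)

/-- The scaled logarithmic Gauss map. -/
noncomputable def gm (Q : ℂ[X][X]) (p : ℂ × ℂ) : ℂ :=
  Q.natDegree / (sw Q).natDegree * (p.1 * sl Q p / p.2)

noncomputable def qq (Q : ℂ[X][X]) (p : ℂ × ℂ) : ℝ := la Q p ^ 2 + lb Q p ^ 2

noncomputable def SS (Q : ℂ[X][X]) (p : ℂ × ℂ) : ℝ := ‖da Q p‖ ^ 2 + ‖db Q p‖ ^ 2

noncomputable def uu (Q : ℂ[X][X]) (p : ℂ × ℂ) : ℂ := la Q p * da Q p + lb Q p * db Q p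

noncomputable def zz (Q : ℂ[X][X]) (p : ℂ × ℂ) : ℂ := la Q p * db Q p - lb Q p * da Q p

/-- The complex derivative of `|lam a| - |kap a + b|`. -/
noncomputable def psi0 (lam kap a b : ℝ) (a' b' : ℂ) : ℂ :=
  sg a * (lam * a') - sg (kap * a + b) * (kap * a' + b')

noncomputable def psi (Q : ℂ[X][X]) (lam kap : ℝ) (p : ℂ × ℂ) : ℂ :=
  psi0 lam kap (la Q p) (lb Q p) (da Q p) (db Q p)

/-- A smooth function on the Riemann sphere. -/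
noncomputable def th0 (lam kap : ℝ) (g : ℂ) : ℝ := (lam ^ 2 - ‖kap + g‖ ^ 2) / (1 + ‖g‖ ^ 2)

noncomputable def Th (Q : ℂ[X][X]) (lam kap : ℝ) (p : ℂ × ℂ) : ℝ := th0 lam kap (gm Q p)

/-- The cut-off at scale `t`. -/
noncomputable def cut (Q : ℂ[X][X]) (t : ℝ) (p : ℂ × ℂ) : ℝ := gam (qq Q p / t ^ 2)

/-- The weight carried by the annulus at scale `t`. -/
noncomputable def om (Q : ℂ[X][X]) (t : ℝ) (p : ℂ × ℂ) : ℝ :=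
  -deriv gam (qq Q p / t ^ 2) * (2 / t ^ 2)

/-- The index inequality in first order form. -/
def HF (Q : ℂ[X][X]) (B : Finset ℂ) (M lam kap : ℝ) : Prop := ∀ φ, Test Q B φ →
  (∫ p, D Q (conj (psi Q lam kap p)) φ p ∂mu Q) ^ 2 ≤ M * ∫ p, gr Q φ φ p ∂mu Q

/-- Above the unit circle the roots are close to the unit circle on average. -/
def Axis (Q : ℂ[X][X]) (m : ℝ) : Prop :=
  CircleIntegrable (fs Q fun p => |log ‖p.2‖|) 0 1 ∧ Mx Q (fun p => |log ‖p.2‖|) ≤ 2 * m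

def SArea : Prop := ∀ (Q : ℂ[X][X]) (B : Finset ℂ) (f : ℂ × ℂ → ℂ) (Φ : ℂ × ℂ → ℝ≥0∞),
  Good Q B → (∀ p, Reg Q B p → AnalyticAt ℂ f p) → Measurable Φ →
  ∫⁻ p, Φ p * ENNReal.ofReal (‖dC Q f p‖ ^ 2) ∂mu Q =
    ∫⁻ w, ∑' p : {p : ℂ × ℂ // Reg Q B p ∧ f p = w ∧ dC Q f p ≠ 0}, Φ p

def SSwap : Prop := ∀ (Q : ℂ[X][X]) (B B' : Finset ℂ), Good Q B → Good (sw Q) B' →
  (∀ p, Reg Q B p → p.2 ∉ B' → sl Q p ≠ 0 ∧ sl (sw Q) p.swap = (sl Q p)⁻¹) ∧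
  (∀ Φ : ℂ × ℂ → ℝ≥0∞, Measurable Φ → (∀ p : ℂ × ℂ, p.1 ∈ B → Φ p = 0) →
    ∫⁻ p, Φ p * ENNReal.ofReal (‖sl Q p‖ ^ 2) ∂mu Q = ∫⁻ p, Φ p.swap ∂mu (sw Q)) ∧
  ∀ Φ : ℂ × ℂ → ℝ, Measurable Φ → (∀ p : ℂ × ℂ, p.1 ∈ B → Φ p = 0) →
    Integrable (fun p => Φ p * ‖sl Q p‖ ^ 2) (mu Q) →
    Integrable (fun p => Φ p.swap) (mu (sw Q)) ∧
      ∫ p, Φ p * ‖sl Q p‖ ^ 2 ∂mu Q = ∫ p, Φ p.swap ∂mu (sw Q)

def SBezG : Prop := ∀ (Q : ℂ[X][X]) (B : Finset ℂ), Tor Q B →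
  ∃ T : Finset ℂ, ∀ w ∉ T, ∀ S : Finset (ℂ × ℂ), (∀ p ∈ S, Reg Q B p ∧ gm Q p = w) →
    (S.card : ℝ) ≤ 2 * DD Q

def SGam : Prop :=
  (ContDiff ℝ 2 gam ∧ (∀ s, 0 ≤ gam s ∧ gam s ≤ 1) ∧ Antitone gam ∧
    (∀ s, s ≤ 1 / 4 → gam s = 1 ∧ deriv gam s = 0) ∧ (∀ s, 1 ≤ s → gam s = 0 ∧ deriv gam s = 0) ∧
    ∃ Γ : ℝ, ∀ s, -Γ ≤ deriv gam s ∧ deriv gam s ≤ 0) ∧
  Measurable sg ∧ (∀ x, |sg x| ≤ 1 ∧ sg x * x = |x| ∧ ∀ c : ℝ, 0 < c → sg (c * x) = sg x)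

def SRho : Prop :=
  (∀ Q : ℂ[X][X], Measurable (la Q) ∧ Measurable (lb Q) ∧ Measurable (da Q) ∧ Measurable (db Q) ∧
    Measurable (gm Q) ∧ Measurable (qq Q) ∧ Measurable (SS Q) ∧ Measurable (uu Q) ∧
    Measurable (zz Q) ∧ (∀ lam kap, Measurable (psi Q lam kap) ∧ Measurable (Th Q lam kap)) ∧
    (∀ t, Measurable (om Q t) ∧ Measurable (cut Q t)) ∧
    ∀ p, ‖uu Q p‖ ^ 2 + ‖zz Q p‖ ^ 2 = qq Q p * SS Q p) ∧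
  ∀ (Q : ℂ[X][X]) (B : Finset ℂ), Tor Q B → 1 ≤ DD Q ∧ ∀ p, Reg Q B p →
    AnalyticAt ℂ (gm Q) p ∧ db Q p = gm Q p * da Q p ∧ ContDiffAt ℝ 1 (uu Q) p ∧
    ContDiffAt ℝ 2 (qq Q) p ∧ (∀ w, D Q w (qq Q) p = 2 * (uu Q p * w).re) ∧
    Lap Q (qq Q) p = 2 * SS Q p ∧ gr Q (qq Q) (qq Q) p = 4 * ‖uu Q p‖ ^ 2 ∧
    ∀ t, ContDiffAt ℝ 2 (cut Q t) p ∧ ∀ w, D Q w (cut Q t) p = -(om Q t p * (uu Q p * w).re)

def STheta : Prop := ∀ lam kap : ℝ, |lam| ≤ 3 → |kap| ≤ 2 →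
  (ContDiff ℝ 2 (th0 lam kap) ∧ ∀ g, |th0 lam kap g| ≤ 10 ∧
    ∀ w, |fderiv ℝ (th0 lam kap) g w| ≤ 50 * ‖w‖ / (1 + ‖g‖ ^ 2)) ∧
  (∀ (a b : ℝ) (a' b' : ℂ), ‖psi0 lam kap a b a' b'‖ ^ 2 ≤ 30 * (‖a'‖ ^ 2 + ‖b'‖ ^ 2))

def SGauss : Prop := ∀ (Q : ℂ[X][X]) (B : Finset ℂ) (lam kap : ℝ), Tor Q B → |lam| ≤ 3 →
  |kap| ≤ 2 → (∀ p, Reg Q B p → ContDiffAt ℝ 2 (Th Q lam kap) p) ∧
  Integrable (gr Q (Th Q lam kap) (Th Q lam kap)) (mu Q) ∧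
  ∫ p, gr Q (Th Q lam kap) (Th Q lam kap) p ∂mu Q ≤ 10 ^ 5 * DD Q

def SAreaT : Prop := ∀ (Q : ℂ[X][X]) (B : Finset ℂ) (t : ℝ), Tor Q B → 0 < t →
  IntegrableOn (SS Q) {p | qq Q p ≤ t ^ 2} (mu Q) ∧
  ∫ p in {p | qq Q p ≤ t ^ 2}, SS Q p ∂mu Q ≤ 8 * π * t * DD Q

def SPolar : Prop := ∀ (f : ℂ → ℝ) (B : Finset ℂ) (r₁ r₂ : ℝ), 0 < r₁ → 0 ∈ B →
  (∀ z ∉ B, ContDiffAt ℝ 1 f z) → (∀ z ∉ B, ‖z‖ < r₁ ∨ r₂ < ‖z‖ → f z = 0) →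
  Integrable (fun z => fderiv ℝ f z (conj (sg (log ‖z‖) / z))) →
  CircleIntegrable f 0 1 ∧
    ∫ z, fderiv ℝ f z (conj (sg (log ‖z‖) / z)) = -(4 * π) * circleAverage f 0 1

def SConvX : Prop := ∀ (Q : ℂ[X][X]) (B : Finset ℂ) (φ : ℂ × ℂ → ℝ) (r₁ r₂ : ℝ), Good Q B →
  0 < r₁ → (∀ p, Reg Q B p → p.1 ≠ 0 → ContDiffAt ℝ 1 φ p) →
  (∀ p, Reg Q B p → p.1 ≠ 0 → ‖p.1‖ < r₁ ∨ r₂ < ‖p.1‖ → φ p = 0) →
  Integrable (fun p => D Q (conj (sg (log ‖p.1‖) / p.1)) φ p) (mu Q) →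
  CircleIntegrable (fs Q φ) 0 1 ∧
    ∫ p, D Q (conj (sg (log ‖p.1‖) / p.1)) φ p ∂mu Q = -(4 * π) * Mx Q φ

def SConv : Prop := ∀ (Q : ℂ[X][X]) (B : Finset ℂ) (φ : ℂ × ℂ → ℝ), Tor Q B → Test Q B φ →
  Integrable (fun p => D Q (conj (sg (log ‖p.1‖) / p.1)) φ p) (mu Q) ∧
  ∫ p, D Q (conj (sg (log ‖p.1‖) / p.1)) φ p ∂mu Q = -(4 * π) * Mx Q φ ∧
  Integrable (fun p => D Q (conj (sg (log ‖p.2‖) * (sl Q p / p.2))) φ p) (mu Q) ∧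
  ∫ p, D Q (conj (sg (log ‖p.2‖) * (sl Q p / p.2))) φ p ∂mu Q = -(4 * π) * My Q φ

def SFirst : Prop := ∀ (Q : ℂ[X][X]) (B : Finset ℂ) (m : ℝ), Tor Q B → 0 ≤ m → HI Q B m →
  HF Q B (16 * π * DD Q * m) 1 0

def SShear : Prop := ∀ (Q Q' : ℂ[X][X]) (B : Finset ℂ) (k α : ℤ) (M : ℝ), Tor Q B → Tor Q' B →
  Q'.natDegree = Q.natDegree →
  (∀ x y : ℂ, x ≠ 0 → Q'.evalEval x (x ^ k * y) = x ^ α * Q.evalEval x y) → HF Q' B M 1 0 →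
  HF Q B M ((sw Q').natDegree / (sw Q).natDegree) (k * Q.natDegree / (sw Q).natDegree)

def SCut : Prop := ∀ (B : Finset ℂ) (δ : ℝ), 0 < δ → ∃ (η : ℂ → ℝ) (ρ : ℝ), 0 < ρ ∧
  ContDiff ℝ 2 η ∧ (∀ z, 0 ≤ η z ∧ η z ≤ 1) ∧ (∀ b ∈ B, ∀ z ∈ ball b ρ, η z = 0) ∧
  (∀ z, (∀ b ∈ B, δ ≤ ‖z - b‖) → η z = 1) ∧
  Integrable (fun z => fderiv ℝ η z 1 ^ 2 + fderiv ℝ η z Complex.I ^ 2) ∧
  ∫ z, (fderiv ℝ η z 1 ^ 2 + fderiv ℝ η z Complex.I ^ 2) ≤ δ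

def SExt : Prop := ∀ (Q : ℂ[X][X]) (B : Finset ℂ) (φ : ℂ × ℂ → ℝ) (ζ : ℂ × ℂ → ℂ)
  (W : Set (ℂ × ℂ)) (K : Set ℂ) (M : ℝ), Good Q B → IsCompact K →
  (∀ p, Reg Q B p → ContDiffAt ℝ 2 φ p ∧ |φ p| ≤ M) →
  (∀ p : ℂ × ℂ, p.1 ∉ B → p.1 ∉ K → φ p = 0) → Integrable (gr Q φ φ) (mu Q) →
  MeasurableSet W → Measurable ζ → IntegrableOn (fun p => ‖ζ p‖ ^ 2) W (mu Q) →
  (∀ p, Reg Q B p → p ∉ W → φ p = 0 ∧ ∀ w, D Q w φ p = 0) →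
  Integrable (fun p => D Q (ζ p) φ p) (mu Q) ∧
  ∀ δ : ℝ, 0 < δ → ∃ η : ℂ → ℝ, Continuous η ∧ (∀ z, 0 ≤ η z ∧ η z ≤ 1) ∧
    (∀ z, (∀ b ∈ B, δ ≤ ‖z - b‖) → η z = 1) ∧ Test Q B (fun p => φ p * η p.1) ∧
    |∫ p, D Q (ζ p) (fun q => φ q * η q.1) p ∂mu Q - ∫ p, D Q (ζ p) φ p ∂mu Q| ≤ δ ∧
    ∫ p, gr Q (fun q => φ q * η q.1) (fun q => φ q * η q.1) p ∂mu Q ≤
      ∫ p, gr Q φ φ p ∂mu Q + δ

def SVec : Prop := ∃ C₁ : ℝ, 0 ≤ C₁ ∧ ∀ (a b kap l₁ l₂ : ℝ) (a' g : ℂ), 1 / 2 ≤ kap →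
  kap ≤ 3 / 2 → 1 ≤ l₁ → l₁ ≤ 5 / 2 → 1 ≤ l₂ → l₂ ≤ 5 / 2 →
  1 / 200 * ((a * a' + b * (g * a')) * conj (sg a * a')).re ≤
    th0 1 0 g * ((a * a' + b * (g * a')) * conj (psi0 1 0 a b a' (g * a'))).re +
    th0 l₁ kap g * ((a * a' + b * (g * a')) * conj (psi0 l₁ kap a b a' (g * a'))).re +
    th0 l₂ (-kap) g * ((a * a' + b * (g * a')) * conj (psi0 l₂ (-kap) a b a' (g * a'))).re +
    C₁ * (‖a * (g * a') - b * a'‖ * √(‖a'‖ ^ 2 + ‖g * a'‖ ^ 2))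

def SGreenRho : Prop := ∀ (Q : ℂ[X][X]) (B : Finset ℂ) (φ : ℂ × ℂ → ℝ) (s : ℝ), Tor Q B →
  Test Q B φ → 0 < s → (∀ p, qq Q p < s → φ p = 0) →
  Integrable (fun p => φ p * (‖zz Q p‖ ^ 2 / √(qq Q p) ^ 3)) (mu Q) ∧
  ∫ p, φ p * (‖zz Q p‖ ^ 2 / √(qq Q p) ^ 3) ∂mu Q =
    -∫ p, D Q (conj (uu Q p) / √(qq Q p)) φ p ∂mu Q

/-- The total turning between two scales is bounded. -/
def STurn : Prop := ∃ C₁ : ℝ, 0 ≤ C₁ ∧ ∀ (Q : ℂ[X][X]) (B : Finset ℂ) (s t : ℝ), Tor Q B →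
  0 < s → s ≤ t →
  IntegrableOn (fun p => ‖zz Q p‖ ^ 2 / √(qq Q p) ^ 3) {p | s ^ 2 < qq Q p ∧ qq Q p ≤ t ^ 2}
    (mu Q) ∧
  ∫ p in {p | s ^ 2 < qq Q p ∧ qq Q p ≤ t ^ 2}, ‖zz Q p‖ ^ 2 / √(qq Q p) ^ 3 ∂mu Q ≤ C₁ * DD Q

def SErr : Prop := ∃ C₁ : ℝ, 0 ≤ C₁ ∧ ∀ (Q : ℂ[X][X]) (B : Finset ℂ) (t₀ : ℝ) (J : ℕ), Tor Q B →
  0 < t₀ → 1 ≤ J → ∃ t, t₀ / 2 ^ J ≤ t ∧ t ≤ t₀ ∧
    Integrable (fun p => om Q t p * (‖zz Q p‖ * √(SS Q p))) (mu Q) ∧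
    ∫ p, om Q t p * (‖zz Q p‖ * √(SS Q p)) ∂mu Q ≤ C₁ * DD Q / √J

def SAxis : Prop := ∀ (P : ℤ[X][X]) (B : Finset ℂ), Tor (toC P) B →
  0 ≤ m2 (toC P) ∧ Axis (toC P) (m2 (toC P))

def SMass : Prop := ∀ (Q : ℂ[X][X]) (B : Finset ℂ) (m t : ℝ), Tor Q B → Axis Q m → 0 < t →
  Integrable (fun p => om Q t p * (uu Q p * conj (sg (la Q p) * da Q p)).re) (mu Q) ∧
  4 * π * DD Q * (1 - 4 * m / t) ≤
    ∫ p, om Q t p * (uu Q p * conj (sg (la Q p) * da Q p)).re ∂mu Q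

def SOne : Prop := ∃ C₁ : ℝ, 0 ≤ C₁ ∧ ∀ (Q : ℂ[X][X]) (B : Finset ℂ) (M lam kap t : ℝ),
  Tor Q B → 0 ≤ M → |lam| ≤ 3 → |kap| ≤ 2 → HF Q B M lam kap → 0 < t → t ≤ 1 →
  Integrable (fun p => om Q t p * (Th Q lam kap p * (uu Q p * conj (psi Q lam kap p)).re))
    (mu Q) ∧
  ∫ p, om Q t p * (Th Q lam kap p * (uu Q p * conj (psi Q lam kap p)).re) ∂mu Q ≤
    C₁ * (DD Q * √t + √(M * DD Q / t))

def SFinal : Prop := ∃ c : ℝ, 0 < c ∧ ∀ (Q : ℂ[X][X]) (B : Finset ℂ) (m kap l₁ l₂ : ℝ),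
  Tor Q B → 0 ≤ m → Axis Q m → 1 / 2 ≤ kap → kap ≤ 3 / 2 → 1 ≤ l₁ → l₁ ≤ 5 / 2 → 1 ≤ l₂ →
  l₂ ≤ 5 / 2 → HF Q B (40 * π * DD Q * m) 1 0 → HF Q B (40 * π * DD Q * m) l₁ kap →
  HF Q B (40 * π * DD Q * m) l₂ (-kap) → c ≤ m

/-! ### Reduction of the Newton polygon -/

/-- Three exponents are not on a line. -/
def NonCol (P : ℤ[X][X]) : Prop := ∃ i₁ j₁ i₂ j₂ i₃ j₃ : ℕ, (P.coeff j₁).coeff i₁ ≠ 0 ∧
  (P.coeff j₂).coeff i₂ ≠ 0 ∧ (P.coeff j₃).coeff i₃ ≠ 0 ∧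
  ((i₂ : ℤ) - i₁) * ((j₃ : ℤ) - j₁) ≠ ((i₃ : ℤ) - i₁) * ((j₂ : ℤ) - j₁)

def SSw : Prop := ∀ P : ℤ[X][X], toC (sw P) = sw (toC P) ∧ (toC P).natDegree = P.natDegree ∧
  sw (sw P) = P ∧ (Irr P → NonCol P →
    Irr (sw P) ∧ NonCol (sw P) ∧ m2 (toC (sw P)) = m2 (toC P) ∧ 1 ≤ P.natDegree)

def STor : Prop :=
  (∀ P : ℤ[X][X], Irr P → NonCol P → ∃ B, Tor (toC P) B) ∧
  ∀ (Q : ℂ[X][X]) (B B₁ : Finset ℂ), Tor Q B → B ⊆ B₁ → Tor Q B₁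

def SSh : Prop := ∀ (P : ℤ[X][X]) (k : ℤ), Irr P → NonCol P → ∃ (P' : ℤ[X][X]) (α : ℤ),
  Irr P' ∧ NonCol P' ∧ m2 (toC P') = m2 (toC P) ∧ P'.natDegree = P.natDegree ∧
  (sw P').natDegree ≤ (sw P).natDegree + k.natAbs * P.natDegree ∧
  ∀ x y : ℂ, x ≠ 0 → (toC P').evalEval x (x ^ k * y) = x ^ α * (toC P).evalEval x y

def SConv0 : Prop := ∀ P : MvPolynomial (Fin 2) ℤ, Irreducible P →
  ¬ Collinear ℝ (pts P.support) → ∃ F : ℤ[X][X], Irr F ∧ NonCol F ∧ m2 (toC F) = mahler P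

/-- The absolute lower bound. -/
def SMain : Prop := ∃ c : ℝ, 0 < c ∧ ∀ P : MvPolynomial (Fin 2) ℤ, Irreducible P →
  ¬ Collinear ℝ (pts P.support) → c ≤ mahler P

/-! ### The steps with their inputs -/

def SLocOf : Prop := SLoc
def SChartOf : Prop := SChart
def SFsOf : Prop := SLoc → SChart → SFs
def SMuOf : Prop := SLoc → SChart → SFs → SMu
def SGreenOf : Prop := SChart → SFs → SMu → SGreen
def SCalcOf : Prop := SChart → SCalc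
def SPolOf : Prop := SPol
def SFundOf : Prop := SPol → SFund
def SHarmOf : Prop := SFund → SHarm
def SDiscOf : Prop := SPol → SDisc
def SJMOf : Prop := SFund → SHarm → SDisc → SJM
def SMoveOf : Prop := SFund → SJM → SMove
def SAddFOf : Prop := SAddF
def SHadOf : Prop := SHad
def SHadROf : Prop := SHad → SHadR
def SJunkOf : Prop := SDisc → SJunk
def SAdmOf : Prop := SChart → SFs → SMu → SCalc → SDisc → SAdm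
def SStepUOf : Prop := SChart → SAddF → SJunk → SAdm → SStepU
def SFibMoveOf : Prop := SChart → SFs → SMu → SCalc → SDisc → SMove → SAddF → SAdm → SFibMove
def SAvg1Of : Prop := SAvg1
def SAvg2Of : Prop := SChart → SMu → SCalc → SFund → SAdm → SAvg2
def SStepGOf : Prop :=
  SLoc → SChart → SFs → SCalc → SFund → SDisc → SJunk → SAdm → SFibMove → SAvg1 → SAvg2 →
  SStepG
def SStepOf : Prop := SDisc → SAdm → SStepU → SStepG → SStep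
def SEvalOf : Prop := SChart → SMu → SGreen → SCalc → SPol → SFund → SDisc → SAdm → SEval
def SIterOf : Prop := SAddF → SIter
def SUBOf : Prop := SDisc → SHadR → SAdm → SStep → SEval → SIter → SUB
def SAlg1Of : Prop := SAlg1
def SAlg2Of : Prop := SAlg2
def SAlg3Of : Prop := SAlg3
def SResMvOf : Prop := SResMv
def STransferOf : Prop := STransfer
def SNonvanOf : Prop := SNonvan
def SPickOf : Prop := SPick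
def SLBOf : Prop := SChart → SResMv → STransfer → SNonvan → SPick → SLB
def SCompOf : Prop := SChart → SFs → SAdm → SComp
def SSumOf : Prop := SChart → SMu → SAdm → SComp → SSum
def SHIOf : Prop :=
  SChart → SAddF → SAdm → SUB → SAlg1 → SAlg2 → SAlg3 → STransfer → SLB → SComp → SSum → SSw →
  SHI
def SAreaOf : Prop := SLoc → SChart → SMu → SArea
def SSwapOf : Prop := SChart → SMu → SArea → SSwap
def SBezGOf : Prop := SLoc → SChart → SBezG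
def SGamOf : Prop := SGam
def SRhoOf : Prop := SChart → SCalc → SGam → SRho
def SGaussOf : Prop := SChart → SMu → SCalc → SPol → SArea → SBezG → SRho → STheta → SGauss
def SAreaTOf : Prop := SMu → SPol → SSwap → SRho → SAreaT
def SPolarOf : Prop := SPolar
def SConvXOf : Prop := SChart → SFs → SMu → SPolar → SConvX
def SConvOf : Prop := SChart → SFs → SMu → SCalc → SAdm → SSwap → SGam → SConvX → SConv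
def SFirstOf : Prop := SChart → SCalc → SAdm → SGam → SConv → SFirst
def SShearOf : Prop := SLoc → SChart → SMu → SGam → SShear
def SCutOf : Prop := SPol → SCut
def SExtOf : Prop := SChart → SMu → SCalc → SPol → SCut → SExt
def SVecOf : Prop := SVec
def SGreenRhoOf : Prop := SChart → SFs → SMu → SGreen → SCalc → SAdm → SRho → SGreenRho
def STurnOf : Prop := SMu → SCalc → SPol → SGam → SRho → SAreaT → SExt → SGreenRho → STurn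
def SErrOf : Prop := SMu → SPol → SGam → SRho → SAreaT → STurn → SErr
def SAxisOf : Prop := SChart → SAxis
def SMassOf : Prop := SChart → SMu → SCalc → SGam → SRho → SAreaT → SConvX → SMass
def SOneOf : Prop := SMu → SCalc → SPol → SGam → SRho → STheta → SGauss → SAreaT → SExt → SOne
def SFinalOf : Prop := SMu → SGam → SRho → SVec → SErr → SMass → SOne → SFinal
def SSwOf : Prop := SSw
def SShOf : Prop := SSh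
def SConv0Of : Prop := SConv0
def SThetaOf : Prop := STheta
def STorOf : Prop := SSw → STor

end Pool.Agent.MP_670f9a_nt.GL
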