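import Pool.Agent.MP_670f9a_nt.H13.Glue2
import Pool.Agent.MP_670f9a_nt.H83.Spec

/-!
The height of a point of large degree on a curve with a two-dimensional Newton polygon.
-/

namespace Pool.Agent.MP_670f9a_nt.GL

open Polynomial Real Finset Module
open Pool.Agent.MP_670f9a_nt.NP

theorem height_of_mahler (h2 : SZhang) (K : Type) [Field K] [NumberField K] (α β : K)
    (P : MvPolynomial (Fin 2) ℤ) (n r : ℕ) (hα : IsIntegral ℤ α) (hβ : IsIntegral ℤ β)
    (hK : IntermediateField.adjoin ℚ {α, β} = ⊤) (hP : Irreducible P)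
    (hev : MvPolynomial.aeval ![α, β] P = 0) (hn : P.totalDegree ≤ n) (hn1 : 1 ≤ n) (hr1 : 1 ≤ r)
    (hm1 : 1 ≤ 10 ^ 4 * r * mahler P)
    (hD : 4 * 10 ^ 7 * (r * n ^ 2 * log (2 * r * n)) ≤ (finrank ℚ K : ℝ)) :
    1 / (16 * 10 ^ 4) / (r * n) * finrank ℚ K ≤ ∑ σ : K →+* ℂ, (log⁺ ‖σ α‖ + log⁺ ‖σ β‖) := by
  set η := ∑ σ : K →+* ℂ, (log⁺ ‖σ α‖ + log⁺ ‖σ β‖) with hη
  have hn' : (1 : ℝ) ≤ n := by exact_mod_cast hn1
  have hr' : (1 : ℝ) ≤ r := by exact_mod_cast hr1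
  obtain ⟨Λ, hΛ1, hΛ2, hΛ3⟩ := num_lambda n r hn1 hr1
  have hΛ0 : (0 : ℝ) < Λ := by exact_mod_cast (by omega : 0 < Λ)
  have hD' : 2 * n * Λ ≤ finrank ℚ K := by
    have : (2 * n * Λ : ℝ) ≤ finrank ℚ K := by
      refine le_trans ?_ hD
      have := mul_le_mul_of_nonneg_left hΛ2 (by positivity : (0 : ℝ) ≤ 2 * n)
      linarith
    exact_mod_cast this
  have hz := h2 K α β P n Λ hα hβ hK hP hev hn hn1 hΛ1 hD'
  rw [← hη] at hz
  set D : ℝ := ((finrank ℚ K : ℕ) : ℝ) with hDd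
  have hD0 : 0 ≤ D := Nat.cast_nonneg _
  have h3 : Λ * D ≤ 10 ^ 4 * r * (mahler P * Λ * D) := by
    have := mul_le_mul_of_nonneg_right hm1 (by positivity : (0 : ℝ) ≤ Λ * D)
    linarith
  have h4 := mul_le_mul_of_nonneg_left hz (by positivity : (0 : ℝ) ≤ 10 ^ 4 * r)
  have h5 := mul_le_mul_of_nonneg_right hΛ3 hD0
  have h6 : Λ * D ≤ Λ * (16 * 10 ^ 4 * (r * n) * η) := by linarith
  have h7 := le_of_mul_le_mul_left h6 hΛ0
  rw [div_div, div_mul_eq_mul_div, one_mul, div_le_iff₀ (by positivity)]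
  linarith

theorem height_abs (h1 : SMain) (h2 : SZhang) : ∃ c C : ℝ, 0 < c ∧
    ∀ (K : Type) [Field K] [NumberField K] (α β : K) (P : MvPolynomial (Fin 2) ℤ) (n : ℕ),
      IsIntegral ℤ α → IsIntegral ℤ β → IntermediateField.adjoin ℚ {α, β} = ⊤ →
      Irreducible P → MvPolynomial.aeval ![α, β] P = 0 → P.totalDegree ≤ n →
      ¬ Collinear ℝ (pts P.support) → C * (n ^ 2 * log (2 * n)) ≤ (finrank ℚ K : ℝ) →
      c / n * finrank ℚ K ≤ ∑ σ : K →+* ℂ, (log⁺ ‖σ α‖ + log⁺ ‖σ β‖) := by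
  obtain ⟨c, hc, h1⟩ := h1
  obtain ⟨r, hr⟩ := exists_nat_ge (1 / c + 1)
  have hc' : 0 < 1 / c := by positivity
  have hr' : (1 : ℝ) ≤ r := by linarith
  have hr1 : 1 ≤ r := by exact_mod_cast hr'
  have hl2 : 0 < log 2 := log_pos (by norm_num)
  have hlr : 0 ≤ log r := log_nonneg hr'
  refine ⟨1 / (16 * 10 ^ 4) / r, 4 * 10 ^ 7 * r * (1 + log r / log 2), by positivity, ?_⟩
  intro K _ _ α β P n hα hβ hK hP hev hn hcol hD
  rcases Nat.eq_zero_or_pos n with rfl | hn1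
  · simpa using Finset.sum_nonneg fun σ _ => add_nonneg posLog_nonneg posLog_nonneg
  have hn' : (1 : ℝ) ≤ n := by exact_mod_cast hn1
  have hm := h1 P hP hcol
  have hrc : 1 ≤ r * c := by
    have : 1 / c * c ≤ r * c := mul_le_mul_of_nonneg_right (by linarith) hc.le
    rwa [one_div, inv_mul_cancel₀ hc.ne'] at this
  have hm1 : 1 ≤ 10 ^ 4 * r * mahler P := by
    have := mul_le_mul_of_nonneg_left hm (by positivity : (0 : ℝ) ≤ r)
    nlinarith
  have hlog : log (2 * r * n) ≤ (1 + log r / log 2) * log (2 * n) := by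
    have e1 : log (2 * r * n) = log r + log (2 * n) := by
      rw [← log_mul (by positivity) (by positivity)]
      congr 1
      ring
    have e2 : log 2 ≤ log (2 * n) := log_le_log (by norm_num) (by linarith)
    have e3 : log r / log 2 * log 2 ≤ log r / log 2 * log (2 * n) :=
      mul_le_mul_of_nonneg_left e2 (by positivity)
    rw [div_mul_cancel₀ _ hl2.ne'] at e3
    rw [e1]
    linarith
  have := height_of_mahler h2 K α β P n r hα hβ hK hP hev hn hn1 hr1 hm1 (by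
    refine le_trans ?_ hD
    have := mul_le_mul_of_nonneg_left hlog (by positivity : (0 : ℝ) ≤ 4 * 10 ^ 7 * (r * n ^ 2))
    linarith)
  rwa [div_div _ (r : ℝ) (n : ℝ)]

end Pool.Agent.MP_670f9a_nt.GL
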