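import Pool.Agent.MP_670f9a_nt.H83.Spec

/-!
The absolute lower bound for the Mahler measure: choice of a reduced basis and assembly.
-/

namespace Pool.Agent.MP_670f9a_nt.GL

open Polynomial Real MeasureTheory
open Pool.Agent.MP_670f9a_nt.NP (m2 toC mahler pts)

theorem HF_mono (hC : SCalc) {Q : ℂ[X][X]} {B : Finset ℂ} {M M' lam kap : ℝ} (h : M ≤ M')
    (hF : HF Q B M lam kap) : HF Q B M' lam kap := by
  intro φ hφ
  refine (hF φ hφ).trans (mul_le_mul_of_nonneg_right h ?_)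
  exact integral_nonneg fun p => ((hC.1 Q p 1).2.2.2.2.2.2.2 φ).1

/-- A nearest integer to `e / d`. -/
theorem exists_near (d e : ℕ) (hd : 1 ≤ d) (hde : d ≤ e) :
    ∃ k : ℕ, (1 : ℝ) / 2 ≤ k * d / e ∧ (k : ℝ) * d / e ≤ 3 / 2 := by
  have he : (0 : ℝ) < e := by exact_mod_cast (by omega : 0 < e)
  refine ⟨(2 * e + d) / (2 * d), ?_, ?_⟩
  · rw [le_div_iff₀ he]
    have h1 := Nat.lt_mul_div_succ (2 * e + d) (by omega : 0 < 2 * d)
    have h2 : e ≤ 2 * ((2 * e + d) / (2 * d) * d) := by nlinarith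
    have h3 : (e : ℝ) ≤ 2 * ((((2 * e + d) / (2 * d) : ℕ) : ℝ) * d) := by exact_mod_cast h2
    linarith
  · rw [div_le_iff₀ he]
    have h1 := Nat.div_mul_le_self (2 * e + d) (2 * d)
    have h2 : 2 * ((2 * e + d) / (2 * d) * d) ≤ 3 * e := by nlinarith
    have h3 : 2 * ((((2 * e + d) / (2 * d) : ℕ) : ℝ) * d) ≤ 3 * e := by exact_mod_cast h2
    linarith

theorem reduced (hC : SCalc) (h1 : SHI) (h2 : SFirst) (h3 : SShear) (h5 : SAxis) (h6 : SSw)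
    (h7 : STor) (h8 : SSh) {c : ℝ}
    (h4 : ∀ (Q : ℂ[X][X]) (B : Finset ℂ) (m kap l₁ l₂ : ℝ),
      Tor Q B → 0 ≤ m → Axis Q m → 1 / 2 ≤ kap → kap ≤ 3 / 2 → 1 ≤ l₁ → l₁ ≤ 5 / 2 → 1 ≤ l₂ →
      l₂ ≤ 5 / 2 → HF Q B (40 * π * DD Q * m) 1 0 → HF Q B (40 * π * DD Q * m) l₁ kap →
      HF Q B (40 * π * DD Q * m) l₂ (-kap) → c ≤ m)
    (P : ℤ[X][X]) (hI : Irr P) (hN : NonCol P) (hde : P.natDegree ≤ (sw P).natDegree)
    (hmin : ∀ P' : ℤ[X][X], Irr P' → NonCol P' → m2 (toC P') = m2 (toC P) →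
      P.natDegree + (sw P).natDegree ≤ P'.natDegree + (sw P').natDegree) :
    c ≤ m2 (toC P) := by
  classical
  have hdeg : ∀ F : ℤ[X][X], (toC F).natDegree = F.natDegree := fun F => (h6 F).2.1
  have hdeg' : ∀ F : ℤ[X][X], (sw (toC F)).natDegree = (sw F).natDegree := fun F => by
    rw [← (h6 F).1, hdeg]
  have hd : 1 ≤ P.natDegree := ((h6 P).2.2.2 hI hN).2.2.2
  obtain ⟨k, hk1, hk2⟩ := exists_near _ _ hd hde
  obtain ⟨P₁, α₁, hI₁, hN₁, hm₁, hd₁, he₁, hs₁⟩ := h8 P k hI hN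
  obtain ⟨P₂, α₂, hI₂, hN₂, hm₂, hd₂, he₂, hs₂⟩ := h8 P (-k) hI hN
  obtain ⟨B₀, hB₀⟩ := h7.1 P hI hN
  obtain ⟨B₁, hB₁⟩ := h7.1 P₁ hI₁ hN₁
  obtain ⟨B₂, hB₂⟩ := h7.1 P₂ hI₂ hN₂
  set B := B₀ ∪ B₁ ∪ B₂ with hB
  have hT₀ : Tor (toC P) B := h7.2 _ _ _ hB₀ fun x hx => by simp [hB, hx]
  have hT₁ : Tor (toC P₁) B := h7.2 _ _ _ hB₁ fun x hx => by simp [hB, hx]
  have hT₂ : Tor (toC P₂) B := h7.2 _ _ _ hB₂ fun x hx => by simp [hB, hx]
  obtain ⟨hm, hA⟩ := h5 P B hT₀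
  have hF : ∀ F : ℤ[X][X], Irr F → Tor (toC F) B → m2 (toC F) = m2 (toC P) →
      HF (toC F) B (16 * π * DD (toC F) * m2 (toC P)) 1 0 := by
    intro F hF hT hmF
    obtain ⟨B', hB'⟩ := hT.2.2.2
    have := h1 F B B' hF hT.1 hB'
    rw [hmF] at this
    exact h2 _ _ _ hT hm this
  have he : (0 : ℝ) < (sw P).natDegree := by exact_mod_cast (by omega : 0 < (sw P).natDegree)
  have hd0 : (0 : ℝ) < P.natDegree := by exact_mod_cast hd
  have hkd : (k : ℝ) * P.natDegree ≤ 3 / 2 * (sw P).natDegree := by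
    rwa [div_le_iff₀ he] at hk2
  have hrange : ∀ F : ℤ[X][X], Irr F → NonCol F → m2 (toC F) = m2 (toC P) →
      F.natDegree = P.natDegree → (sw F).natDegree ≤ (sw P).natDegree + k * P.natDegree →
      (1 : ℝ) ≤ (sw F).natDegree / (sw P).natDegree ∧
        ((sw F).natDegree : ℝ) / (sw P).natDegree ≤ 5 / 2 ∧
        16 * π * DD (toC F) * m2 (toC P) ≤ 40 * π * DD (toC P) * m2 (toC P) := by
    intro F a1 a2 a3 a4 a5
    have b1 := hmin F a1 a2 a3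
    have b2 : ((sw P).natDegree : ℝ) ≤ (sw F).natDegree := by exact_mod_cast (by omega)
    have b3 : ((sw F).natDegree : ℝ) ≤ (sw P).natDegree + k * P.natDegree := by exact_mod_cast a5
    have b4 : ((sw F).natDegree : ℝ) ≤ 5 / 2 * (sw P).natDegree := by linarith
    refine ⟨by rwa [le_div_iff₀ he, one_mul], by rwa [div_le_iff₀ he], ?_⟩
    refine mul_le_mul_of_nonneg_right ?_ hm
    unfold DD
    rw [hdeg, hdeg, hdeg', hdeg', a4]
    have := mul_le_mul_of_nonneg_left b4 (by positivity : (0 : ℝ) ≤ 16 * π * P.natDegree)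
    linarith
  obtain ⟨a1, a2, a3⟩ := hrange P₁ hI₁ hN₁ hm₁ hd₁ (by simpa using he₁)
  obtain ⟨b1, b2, b3⟩ := hrange P₂ hI₂ hN₂ hm₂ hd₂ (by simpa using he₂)
  have g₁ := h3 _ _ B k α₁ _ hT₀ hT₁ (by rw [hdeg, hdeg, hd₁]) hs₁ (hF P₁ hI₁ hT₁ hm₁)
  have g₂ := h3 _ _ B (-k) α₂ _ hT₀ hT₂ (by rw [hdeg, hdeg, hd₂]) hs₂ (hF P₂ hI₂ hT₂ hm₂)
  rw [hdeg, hdeg', hdeg'] at g₁ g₂
  refine h4 (toC P) B _ (k * P.natDegree / (sw P).natDegree) _ _ hT₀ hm hA hk1 hk2 a1 a2 b1 b2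
    (HF_mono hC ?_ (hF P hI hT₀ rfl)) (HF_mono hC a3 (by simpa using g₁))
    (HF_mono hC b3 (by simpa [neg_div] using g₂))
  refine mul_le_mul_of_nonneg_right ?_ hm
  have : 0 ≤ π * DD (toC P) := by unfold DD; positivity
  linarith

theorem sMainOf (hC : SCalc) (h1 : SHI) (h2 : SFirst) (h3 : SShear) (h4 : SFinal) (h5 : SAxis)
    (h6 : SSw) (h7 : STor) (h8 : SSh) (h9 : SConv0) : SMain := by
  classical
  obtain ⟨c, hc, h4⟩ := h4
  refine ⟨c, hc, fun P hP hcol => ?_⟩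
  obtain ⟨F, hF1, hF2, hF3⟩ := h9 P hP hcol
  have hex : ∃ n, ∃ G : ℤ[X][X], Irr G ∧ NonCol G ∧ m2 (toC G) = mahler P ∧
      G.natDegree + (sw G).natDegree = n := ⟨_, F, hF1, hF2, hF3, rfl⟩
  obtain ⟨G, g1, g2, g3, g4⟩ := Nat.find_spec hex
  have hmin : ∀ P' : ℤ[X][X], Irr P' → NonCol P' → m2 (toC P') = mahler P →
      Nat.find hex ≤ P'.natDegree + (sw P').natDegree := fun P' a b e =>
    Nat.find_min' hex ⟨P', a, b, e, rfl⟩
  rcases le_total G.natDegree (sw G).natDegree with h | h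
  · rw [← g3]
    exact reduced hC h1 h2 h3 h5 h6 h7 h8 h4 G g1 g2 h fun P' a b e => by
      rw [g4]; exact hmin P' a b (e.trans g3)
  · obtain ⟨s1, s2, s3, -⟩ := (h6 G).2.2.2 g1 g2
    have hss : sw (sw G) = G := (h6 G).2.2.1
    rw [← g3, ← s3]
    refine reduced hC h1 h2 h3 h5 h6 h7 h8 h4 (sw G) s1 s2 (by rwa [hss]) fun P' a b e => ?_
    rw [hss, add_comm, g4]
    exact hmin P' a b (e.trans (s3.trans g3))

end Pool.Agent.MP_670f9a_nt.GL
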